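import Pool.Agent.Q219.GWB.Stmts

set_option autoImplicit false

namespace Pool.Agent.Q219.GWB

open MeasureTheory ProbabilityTheory Set Filter Topology

theorem assemblyA (hCritA : TaskCritA) (hEngA : TaskEngA) (hPc : TaskPc) :
    ∀ r : ℕ, 2 ≤ r → ∀ ν : Measure ℕ, IsProbabilityMeasure ν → ν {0} = 0 →
      Integrable (fun k : ℕ => (k : ℝ)) ν → ∀ b : ℝ, ∫ k, (k : ℝ) ∂ν = b → (r : ℝ) ≤ b →
      ∀ᵐ ξ ∂(GW ν), 1 / (4 * Real.exp 1) * Real.exp (-b / ((r : ℝ) - 1)) ≤ pc ξ r := by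
  intro r hr ν hν h0 hint b hb hrb
  have hr' : (2 : ℝ) ≤ (r : ℝ) := by exact_mod_cast hr
  have hr1 : (0 : ℝ) < (r : ℝ) - 1 := by linarith
  set E : ℝ := Real.exp (-b / ((r : ℝ) - 1)) with hE
  have hE0 : 0 < E := Real.exp_pos _
  have hE1 : E ≤ 1 := by
    rw [hE, Real.exp_le_one_iff]
    apply div_nonpos_of_nonpos_of_nonneg <;> linarith
  have he : (2 : ℝ) < Real.exp 1 := by
    have := Real.exp_one_gt_d9
    linarith
  set p : ℝ := 1 / (4 * Real.exp 1) * E with hp
  have hp0 : 0 < p := by positivity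
  have hc : 1 / (4 * Real.exp 1) ≤ (1 : ℝ) / 8 := by
    apply one_div_le_one_div_of_le <;> linarith
  have hp1 : p ≤ 1 / 8 := by
    calc p ≤ (1 / 8) * 1 := mul_le_mul hc hE1 hE0.le (by norm_num)
      _ = 1 / 8 := by norm_num
  have hcrit : p / (1 - p) < Real.exp (-1 - (∫ k, (k : ℝ) ∂ν) / ((r : ℝ) - 1)) := by
    rw [hb]
    have h1 : Real.exp (-1 - b / ((r : ℝ) - 1)) = (Real.exp 1)⁻¹ * E := by
      rw [hE, ← Real.exp_neg, ← Real.exp_add]
      congr 1
      ring
    rw [h1, div_lt_iff₀ (by linarith)]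
    have h2 : p = (1 / 4) * ((Real.exp 1)⁻¹ * E) := by
      rw [hp]; field_simp
    have h3 : 0 < (Real.exp 1)⁻¹ * E := by positivity
    nlinarith
  obtain ⟨y, hy0, hy1, hy⟩ := hCritA ν hν r p hr hint hp0 (by linarith) hcrit
  have h2 : 0 < ν {k | 2 ≤ k} := by
    rw [pos_iff_ne_zero]
    intro hz
    have hae : ∀ᵐ (k : ℕ) ∂ν, (k : ℝ) ≤ 1 := by
      have : ∀ᵐ (k : ℕ) ∂ν, ¬ (2 ≤ k) := by
        rw [ae_iff]
        simp only [not_not]
        exact hz
      filter_upwards [this] with k hk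
      have : k ≤ 1 := by omega
      exact_mod_cast this
    have hle : ∫ k, (k : ℝ) ∂ν ≤ ∫ _k, (1 : ℝ) ∂ν := integral_mono_ae hint (integrable_const _) hae
    rw [hb] at hle
    simp at hle
    linarith
  filter_upwards [hEngA ν hν h0 h2 r p y hr hp0.le (by linarith) hy0 hy1 hy] with ξ hξ
  exact hPc ξ r p hp0.le (by linarith) hξ

theorem assemblyB (hCritB : TaskCritB) (hEngA : TaskEngA) (hEngB : TaskEngB)
    (hSub : TaskSubcrit) (hOnes : TaskOnes) (hPc : TaskPc) :
    ∀ r : ℕ, 2 ≤ r → ∀ α : ℝ, 0 < α → α ≤ (r : ℝ) - 1 → ∀ ν : Measure ℕ, IsProbabilityMeasure ν →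
      Integrable (fun k : ℕ => (k : ℝ) ^ (1 + α)) ν →
      ∀ᵐ ξ ∂(GW ν), {w | InTree ξ w}.Infinite →
        (2 : ℝ) ^ (-(1 + α) / α) * (∫ k, (k : ℝ) ^ (1 + α) ∂ν) ^ (-1 / α) ≤ pc ξ r := by
  intro r hr α hα hαr ν hν hint
  set m : ℝ := ∫ k, (k : ℝ) ^ (1 + α) ∂ν with hm
  have hkle : ∀ k : ℕ, (k : ℝ) ≤ (k : ℝ) ^ (1 + α) := by
    intro k
    rcases Nat.eq_zero_or_pos k with h | h
    · subst h
      simp only [Nat.cast_zero]
      exact Real.rpow_nonneg le_rfl _
    · have h1 : (1 : ℝ) ≤ (k : ℝ) := by exact_mod_cast h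
      calc (k : ℝ) = (k : ℝ) ^ (1 : ℝ) := (Real.rpow_one _).symm
        _ ≤ (k : ℝ) ^ (1 + α) := Real.rpow_le_rpow_of_exponent_le h1 (by linarith)
  by_cases hm1 : m < 1
  · have hint1 : Integrable (fun k : ℕ => (k : ℝ)) ν := by
      refine hint.mono' (by fun_prop) (Filter.Eventually.of_forall fun k => ?_)
      rw [Real.norm_eq_abs, abs_of_nonneg (Nat.cast_nonneg k)]
      exact hkle k
    have hmean : ∫ k, (k : ℝ) ∂ν < 1 :=
      lt_of_le_of_lt (integral_mono hint1 hint hkle) hm1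
    filter_upwards [hSub ν hν hint1 hmean] with ξ hξ hinf
    exact absurd hξ hinf
  · push Not at hm1
    have hmpos : 0 < m := by linarith
    set c : ℝ := (2 : ℝ) ^ (-(1 + α) / α) with hc
    have hc0 : 0 < c := Real.rpow_pos_of_pos (by norm_num) _
    have hc1 : c < 1 / 2 := by
      have h1 : (1 : ℝ) / 2 = (2 : ℝ) ^ (-1 : ℝ) := by
        rw [Real.rpow_neg_one]; norm_num
      rw [hc, h1]
      apply Real.rpow_lt_rpow_of_exponent_lt (by norm_num)
      rw [div_lt_iff₀ hα]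
      linarith
    have hM1 : m ^ (-1 / α) ≤ 1 := by
      apply Real.rpow_le_one_of_one_le_of_nonpos hm1
      apply div_nonpos_of_nonpos_of_nonneg <;> linarith
    have hM0 : 0 < m ^ (-1 / α) := Real.rpow_pos_of_pos hmpos _
    set p : ℝ := c * m ^ (-1 / α) with hp
    have hp0 : 0 < p := mul_pos hc0 hM0
    have hp12 : p < 1 / 2 := by
      calc p ≤ c * 1 := mul_le_mul_of_nonneg_left hM1 hc0.le
        _ < 1 / 2 := by linarith
    have hpa : (2 : ℝ) ^ (1 + α) * m * p ^ α ≤ 1 := by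
      have h1 : p ^ α = c ^ α * (m ^ (-1 / α)) ^ α := Real.mul_rpow hc0.le hM0.le
      have h2 : c ^ α = ((2 : ℝ) ^ (1 + α))⁻¹ := by
        rw [hc, ← Real.rpow_mul (by norm_num), ← Real.rpow_neg (by norm_num)]
        congr 1
        field_simp
      have h3 : (m ^ (-1 / α)) ^ α = m⁻¹ := by
        rw [← Real.rpow_mul hmpos.le, ← Real.rpow_neg_one]
        congr 1
        field_simp
      have h4 : (0 : ℝ) < (2 : ℝ) ^ (1 + α) := Real.rpow_pos_of_pos (by norm_num) _
      rw [h1, h2, h3]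
      apply le_of_eq
      field_simp
    by_cases hν0 : ν {0} = 0
    · by_cases h2 : ν {k | 2 ≤ k} = 0
      · have hone : ν {1} = 1 := by
          have hae : ∀ᵐ k ∂ν, k ∈ ({1} : Set ℕ) := by
            have ha : ∀ᵐ (k : ℕ) ∂ν, ¬ (2 ≤ k) := by
              rw [ae_iff]
              simp only [not_not]
              exact h2
            have hb : ∀ᵐ k ∂ν, ¬ (k = 0) := by
              rw [ae_iff]; simpa using hν0
            filter_upwards [ha, hb] with k hk1 hk2
            simp only [Set.mem_singleton_iff]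
            omega
          exact (prob_compl_eq_zero_iff (measurableSet_singleton _)).1 (mem_ae_iff.1 hae)
        filter_upwards [hOnes ν hν hone r p hr hp0.le (by linarith)] with ξ hξ _
        exact hPc ξ r p hp0.le (by linarith) hξ
      · have hcr := hCritB ν hν r p α hr hα hαr hint hp0 hp12 hpa
        filter_upwards [hEngA ν hν hν0 (pos_iff_ne_zero.2 h2) r p (2 * p) hr hp0.le (by linarith)
          (by linarith) (by linarith) hcr] with ξ hξ _
        exact hPc ξ r p hp0.le (by linarith) hξ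
    · filter_upwards [hEngB ν hν (pos_iff_ne_zero.2 hν0) r p hr hp0.le (by linarith)] with ξ hξ hinf
      exact hPc ξ r p hp0.le (by linarith) (hξ hinf)

end Pool.Agent.Q219.GWB
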