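import Pool.Agent.Q219.GWB.Assembly

set_option autoImplicit false

namespace Pool.Agent.Q219.GWB

open MeasureTheory ProbabilityTheory Set Filter Topology

/-- `f_r^{GW}(b)`: the infimum of the critical probabilities `p_c(T_ξ, r)` (the constants with
`pc = x` almost surely) over the offspring laws `ν` without leaves and with mean `b`. -/
noncomputable def fGW (r : ℕ) (b : ℝ) : EReal :=
  sInf {x : EReal | ∃ ν : Measure ℕ, IsProbabilityMeasure ν ∧ ν {0} = 0 ∧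
    Integrable (fun k : ℕ => (k : ℝ)) ν ∧ ∫ k, (k : ℝ) ∂ν = b ∧
    ∃ c : ℝ, (∀ᵐ ξ ∂(GW ν), pc ξ r = c) ∧ x = (c : EReal)}

theorem gw_prob (ν : Measure ℕ) (hν : IsProbabilityMeasure ν) : IsProbabilityMeasure (GW ν) := by
  unfold GW
  infer_instance

theorem assemblyC (hA : ∀ r : ℕ, 2 ≤ r → ∀ ν : Measure ℕ, IsProbabilityMeasure ν → ν {0} = 0 →
      Integrable (fun k : ℕ => (k : ℝ)) ν → ∀ b : ℝ, ∫ k, (k : ℝ) ∂ν = b → (r : ℝ) ≤ b →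
      ∀ᵐ ξ ∂(GW ν), 1 / (4 * Real.exp 1) * Real.exp (-b / ((r : ℝ) - 1)) ≤ pc ξ r) :
    (∀ r : ℕ, 2 ≤ r → ∃ c : ℝ, 0 < c ∧ ∀ b : ℝ, (r : ℝ) ≤ b →
      ((c * Real.exp (-b / ((r : ℝ) - 1)) : ℝ) : EReal) ≤ fGW r b) ∧
    ∀ r : ℕ, 2 ≤ r → ∀ ν : Measure ℕ, IsProbabilityMeasure ν → ν {0} = 0 →
      Integrable (fun k : ℕ => (k : ℝ)) ν → ∀ b : ℝ, ∫ k, (k : ℝ) ∂ν = b → (r : ℝ) ≤ b →
      ∀ᵐ ξ ∂(GW ν), 1 / (4 * Real.exp 1) * Real.exp (-b / ((r : ℝ) - 1)) ≤ pc ξ r := by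
  refine ⟨fun r hr => ⟨1 / (4 * Real.exp 1), by positivity, fun b hb => ?_⟩, hA⟩
  apply le_sInf
  rintro x ⟨ν, hν, h0, hint, hmean, c, hc, rfl⟩
  have h1 := hA r hr ν hν h0 hint b hmean hb
  haveI := gw_prob ν hν
  obtain ⟨ξ, h2, h3⟩ := (h1.and hc).exists
  rw [h3] at h2
  exact_mod_cast h2

end Pool.Agent.Q219.GWB
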