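import Pool.Agent.Q219.GWB.Stmts

set_option autoImplicit false

namespace Pool.Agent.Q219.GWB.TRayB

open MeasureTheory ProbabilityTheory Set Filter Topology Pool.Agent.Q219.GWB

theorem inTree_of_pos (n : ℕ) : ∀ ξ : List ℕ → ℕ, (∀ w, ξ w ≠ 0) →
    InTree ξ (List.replicate n 0) ∧ (2 ≤ ξ (List.replicate n 0) →
      InTree ξ (List.replicate n 0 ++ [1])) := by
  induction n with
  | zero =>
    intro ξ _
    refine ⟨trivial, fun h => ?_⟩
    simp only [List.replicate_zero, List.nil_append]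
    exact ⟨Nat.lt_of_succ_le h, trivial⟩
  | succ n ih =>
    intro ξ hξ
    obtain ⟨h1, h2⟩ := ih (fun u => ξ (0 :: u)) (fun w => hξ _)
    rw [List.replicate_succ]
    refine ⟨⟨Nat.pos_of_ne_zero (hξ _), h1⟩, fun h => ?_⟩
    rw [List.cons_append]
    exact ⟨Nat.pos_of_ne_zero (hξ _), h2 h⟩

theorem main : Pool.Agent.Q219.GWB.TaskRay := by
  intro ν hν h0
  have hall : ∀ᵐ ξ ∂(GW ν), ∀ w : List ℕ, ξ w ≠ 0 := by
    rw [ae_all_iff]
    intro w
    have hmp : MeasurePreserving (Function.eval w) (GW ν) ν :=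
      measurePreserving_eval_infinitePi (fun _ : List ℕ => ν) w
    have hae : ∀ᵐ k ∂ν, k ≠ 0 := by
      rw [ae_iff]
      simpa using h0
    exact hmp.quasiMeasurePreserving.ae hae
  filter_upwards [hall] with ξ hξ n
  exact inTree_of_pos n ξ hξ

end Pool.Agent.Q219.GWB.TRayB
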