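import Mathlib

/-!
# Bootstrap percolation on Galton–Watson trees: definitions and the statements of the lemmas

Every `TaskXxx` is a self-contained statement; the tasks named in the doc string may be hypotheses.
-/

set_option autoImplicit false

namespace Pool.Agent.Q219.GWB

open MeasureTheory ProbabilityTheory Set Filter Topology

/-! ### The tree, the process, the critical probability -/

/-- The vertices are words (`[]` is the root, the children of `v` are `v ++ [0], v ++ [1], ...`); `ξ v` is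
the number of the children of `v`. The word `i :: w` is in the tree if `i < ξ []` and `w` is in the
subtree of the child `[i]`. -/
def InTree : (List ℕ → ℕ) → List ℕ → Prop
  | _, [] => True
  | ξ, i :: w => i < ξ [] ∧ InTree (fun u => ξ (i :: u)) w

/-- the neighbours of `v` in the tree: its children and its parent -/
def nbrs (ξ : List ℕ → ℕ) (v : List ℕ) : Set (List ℕ) :=
  {u | InTree ξ u ∧ ∃ i : ℕ, u = v ++ [i] ∨ v = u ++ [i]}

/-- the vertices infected at time `t`; initially these are the `v` with `η v = true` -/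
def infected (ξ : List ℕ → ℕ) (r : ℕ) (η : List ℕ → Bool) : ℕ → Set (List ℕ)
  | 0 => {v | InTree ξ v ∧ η v = true}
  | t + 1 => infected ξ r η t ∪ {v | InTree ξ v ∧ (r : ℕ∞) ≤ (nbrs ξ v ∩ infected ξ r η t).encard}

/-- every vertex is eventually infected -/
def Percolates (ξ : List ℕ → ℕ) (r : ℕ) (η : List ℕ → Bool) : Prop :=
  ∀ v, InTree ξ v → ∃ t, v ∈ infected ξ r η t

/-- the law of the Galton–Watson tree with the offspring law `ν` -/
noncomputable def GW (ν : Measure ℕ) : Measure (List ℕ → ℕ) :=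
  Measure.infinitePi (fun _ : List ℕ => ν)

/-- the Bernoulli law -/
noncomputable def bern (p : ℝ) : Measure Bool :=
  ENNReal.ofReal p • Measure.dirac true + ENNReal.ofReal (1 - p) • Measure.dirac false

/-- the law of the initial configuration -/
noncomputable def Ini (p : ℝ) : Measure (List ℕ → Bool) :=
  Measure.infinitePi (fun _ : List ℕ => bern p)

/-- the critical probability of the tree `ξ` -/
noncomputable def pc (ξ : List ℕ → ℕ) (r : ℕ) : ℝ :=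
  sInf {p : ℝ | 0 ≤ p ∧ p ≤ 1 ∧ 0 < Ini p {η | Percolates ξ r η}}

/-! ### Binomial tails -/

/-- `P (Bin (k, y) ≥ r)` -/
noncomputable def bt (k r : ℕ) (y : ℝ) : ℝ :=
  ∑ j ∈ Finset.Icc r k, (k.choose j : ℝ) * y ^ j * (1 - y) ^ (k - j)

/-- `E P (Bin (ξ, y) ≥ r)` -/
noncomputable def B (ν : Measure ℕ) (r : ℕ) (y : ℝ) : ℝ := ∫ k, bt k r y ∂ν

/-- `0 ≤ bt ≤ 1`, and monotone (binomial theorem; derivative `r C(k,r) y^(r-1) (1-y)^(k-r)`, or induction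
on `k`: `bt (k+1) (r+1) y = y bt k r y + (1-y) bt k (r+1) y`). -/
def TaskBtRange : Prop := ∀ (k r : ℕ) (y : ℝ), 0 ≤ y → y ≤ 1 → 0 ≤ bt k r y ∧ bt k r y ≤ 1

def TaskBtMono : Prop := ∀ (k r : ℕ) (x y : ℝ), 0 ≤ x → x ≤ y → y ≤ 1 → bt k r x ≤ bt k r y

/-- Uses TaskBtRange, TaskBtMono. -/
def TaskBMono : Prop := ∀ (ν : Measure ℕ), IsProbabilityMeasure ν → ∀ (r : ℕ) (x y : ℝ), 0 ≤ x →
  x ≤ y → y ≤ 1 → B ν r x ≤ B ν r y ∧ 0 ≤ B ν r x ∧ B ν r y ≤ 1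

/-- The key integral: `∫_0^1 C(k,j) y^(j-2) (1-y)^(k-j) = k / (j (j-1))` (Beta integral) and
`∑_{j ≥ r} 1/(j(j-1)) ≤ 1/(r-1)`. -/
def TaskInt : Prop := ∀ (k r : ℕ) (δ : ℝ), 2 ≤ r → 0 < δ → δ ≤ 1 →
  ((r : ℝ) - 1) * ∫ y in δ..1, bt k r y / y ^ 2 ≤ k

/-- If not, `B(y) - y > -d (1-y)` on `[d, 1)`, `d = p/(1-p)`; integrate against `(r-1)/y^2` over `[d, 1]`:
the left side is at most `b - (r-1) log (1/d)` (TaskInt and Fubini), the right side at least `-(r-1)`.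
Uses TaskInt, TaskBtRange. -/
def TaskCritA : Prop := ∀ (ν : Measure ℕ), IsProbabilityMeasure ν → ∀ (r : ℕ) (p : ℝ), 2 ≤ r →
  Integrable (fun k : ℕ => (k : ℝ)) ν → 0 < p → p < 1 →
  p / (1 - p) < Real.exp (-1 - (∫ k, (k : ℝ) ∂ν) / ((r : ℝ) - 1)) →
  ∃ y : ℝ, 0 ≤ y ∧ y < 1 ∧ p + (1 - p) * B ν r y ≤ y

/-- `k y ≥ 1`: trivial (TaskBtRange). Otherwise `bt k r y ≤ C(k,r) y^r ≤ (k y)^r ≤ (k y)^(1+α)`. -/
def TaskUnion : Prop := ∀ (k r : ℕ) (y α : ℝ), 2 ≤ r → 0 ≤ y → y ≤ 1 → 0 < α → α ≤ (r : ℝ) - 1 →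
  bt k r y ≤ ((k : ℝ) * y) ^ (1 + α)

/-- Uses TaskUnion, TaskBtRange: `B ν r (2p) ≤ m (2p)^(1+α) ≤ p`. -/
def TaskCritB : Prop := ∀ (ν : Measure ℕ), IsProbabilityMeasure ν → ∀ (r : ℕ) (p α : ℝ), 2 ≤ r →
  0 < α → α ≤ (r : ℝ) - 1 → Integrable (fun k : ℕ => (k : ℝ) ^ (1 + α)) ν → 0 < p → p < 1 / 2 →
  2 ^ (1 + α) * (∫ k, (k : ℝ) ^ (1 + α) ∂ν) * p ^ α ≤ 1 →
  p + (1 - p) * B ν r (2 * p) ≤ 2 * p

/-! ### The marked tree -/

/-- a tree with an initial configuration -/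
abbrev W : Type := List ℕ → ℕ × Bool

noncomputable def P (ν : Measure ℕ) (p : ℝ) : Measure W :=
  Measure.infinitePi (fun _ : List ℕ => ν.prod (bern p))

/-- the subtree of the child `i` of the root -/
def sub (i : ℕ) (ω : W) : W := fun u => ω (i :: u)

/-- the root is healthy at time `n` (without parent) -/
def Hl (r : ℕ) : ℕ → W → Prop
  | 0, ω => (ω []).2 = false
  | n + 1, ω => (ω []).2 = false ∧ {i : ℕ | i < (ω []).1 ∧ ¬ Hl r n (sub i ω)}.ncard < r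

/-- the root is healthy at time `0` and all the children of the root are healthy forever without the
root -/
def Gd (r : ℕ) (ω : W) : Prop := (ω []).2 = false ∧ ∀ i, i < (ω []).1 → ∀ n, Hl r n (sub i ω)

def TaskBern : Prop := ∀ p : ℝ, 0 ≤ p → p ≤ 1 → IsProbabilityMeasure (bern p)

def TaskMeas : Prop := ∀ r n : ℕ, MeasurableSet {ω : W | Hl r n ω}

/-- Uses TaskMeas. -/
def TaskMeasG : Prop := ∀ r : ℕ, MeasurableSet {ω : W | Gd r ω}

/-- The branching property (`Measure.eq_infinitePi`, or uniqueness on boxes). -/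
def TaskBranch : Prop := ∀ (X : Type) (_ : MeasurableSpace X) (ρ : Measure X),
  IsProbabilityMeasure ρ →
  (Measure.infinitePi (fun _ : List ℕ => ρ)).map
      (fun ω => (ω [], fun i : ℕ => fun u : List ℕ => ω (i :: u))) =
    ρ.prod (Measure.infinitePi (fun _ : ℕ => Measure.infinitePi (fun _ : List ℕ => ρ)))

/-- `Measure.eq_infinitePi`. -/
def TaskZip : Prop := ∀ (ν : Measure ℕ) (β : Measure Bool), IsProbabilityMeasure ν →
  IsProbabilityMeasure β →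
  ((Measure.infinitePi (fun _ : List ℕ => ν)).prod (Measure.infinitePi (fun _ : List ℕ => β))).map
      (fun z => fun w => (z.1 w, z.2 w)) = Measure.infinitePi (fun _ : List ℕ => ν.prod β)

/-- The number of the failures among `k` independent events. -/
def TaskBin : Prop := ∀ (Y : Type) (_ : MeasurableSpace Y) (L : Measure Y), IsProbabilityMeasure L →
  ∀ E : Set Y, MeasurableSet E → ∀ k r : ℕ,
  ((Measure.infinitePi (fun _ : ℕ => L)) {f | {i : ℕ | i < k ∧ f i ∉ E}.ncard < r}).toReal =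
    1 - bt k r (1 - (L E).toReal)

/-- All `k` events. -/
def TaskAll : Prop := ∀ (Y : Type) (_ : MeasurableSpace Y) (L : Measure Y), IsProbabilityMeasure L →
  ∀ E : Set Y, MeasurableSet E → ∀ k : ℕ,
  (Measure.infinitePi (fun _ : ℕ => L)) {f | ∀ i, i < k → f i ∈ E} = (L E) ^ k

/-- Uses TaskBranch, TaskBin, TaskMeas, TaskBern, TaskBtRange. -/
def TaskRec : Prop := ∀ (ν : Measure ℕ), IsProbabilityMeasure ν → ∀ (r n : ℕ) (p : ℝ), 0 ≤ p →
  p ≤ 1 → (P ν p {ω | Hl r (n + 1) ω}).toReal =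
    (1 - p) * (1 - B ν r (1 - (P ν p {ω | Hl r n ω}).toReal))

/-- Uses TaskRec, TaskBMono, TaskBern (`n = 0`: the probability is `1 - p ≥ 1 - y`). -/
def TaskHn : Prop := ∀ (ν : Measure ℕ), IsProbabilityMeasure ν → ∀ (r : ℕ) (p y : ℝ), 0 ≤ p → p ≤ 1 →
  0 ≤ y → y < 1 → p + (1 - p) * B ν r y ≤ y → ∀ n, 1 - y ≤ (P ν p {ω | Hl r n ω}).toReal

def TaskHdec : Prop := ∀ (r n : ℕ) (ω : W), Hl r (n + 1) ω → Hl r n ω

/-- Uses TaskHn, TaskHdec, TaskMeas, TaskBern. -/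
def TaskHinf : Prop := ∀ (ν : Measure ℕ), IsProbabilityMeasure ν → ∀ (r : ℕ) (p y : ℝ), 0 ≤ p →
  p ≤ 1 → 0 ≤ y → y < 1 → p + (1 - p) * B ν r y ≤ y → 1 - y ≤ (P ν p {ω | ∀ n, Hl r n ω}).toReal

/-- Uses TaskHinf, TaskBranch, TaskAll, TaskMeas, TaskBern, TaskBMono (`p ≤ y < 1`). -/
def TaskGpos : Prop := ∀ (ν : Measure ℕ), IsProbabilityMeasure ν → ∀ (r : ℕ) (p y : ℝ), 0 ≤ p →
  p ≤ 1 → 0 ≤ y → y < 1 → p + (1 - p) * B ν r y ≤ y → 0 < P ν p {ω | Gd r ω}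

/-- `B` = no such `n`: `P B ≤ (1 - κ) P B` by TaskBranch, for the child `0` and the child `1`. Uses
TaskBranch. -/
def TaskMany : Prop := ∀ (ρ : Measure (ℕ × Bool)), IsProbabilityMeasure ρ →
  0 < ρ {x | 2 ≤ x.1} → ∀ G : Set W, MeasurableSet G →
  0 < Measure.infinitePi (fun _ : List ℕ => ρ) G →
  ∀ᵐ ω ∂(Measure.infinitePi (fun _ : List ℕ => ρ)),
    ∃ n : ℕ, 2 ≤ (ω (List.replicate n 0)).1 ∧ (fun u => ω (List.replicate n 0 ++ (1 :: u))) ∈ G

/-! ### Forts -/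

/-- `F` is a fort: healthy, and every vertex has less than `r` neighbours outside. -/
def IsFort (ξ : List ℕ → ℕ) (r : ℕ) (η : List ℕ → Bool) (F : Set (List ℕ)) : Prop :=
  ∀ v ∈ F, InTree ξ v ∧ η v = false ∧ (nbrs ξ v \ F).encard < r

def TaskFort : Prop := ∀ (ξ : List ℕ → ℕ) (r : ℕ) (η : List ℕ → Bool) (F : Set (List ℕ)),
  IsFort ξ r η F → ∀ t, Disjoint F (infected ξ r η t)

/-- `F` consists of `v` and of the `v ++ [i] ++ u` such that all vertices from `v ++ [i]` to it satisfy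
`∀ n, Hl n`. Uses TaskHdec. -/
def TaskFortOf : Prop := ∀ (ξ : List ℕ → ℕ) (r : ℕ) (η : List ℕ → Bool) (v : List ℕ), 2 ≤ r →
  InTree ξ v → Gd r (fun u => (ξ (v ++ u), η (v ++ u))) → ∃ F, v ∈ F ∧ IsFort ξ r η F

/-- A healthy leaf blocks. Uses TaskFort. -/
def TaskLeafFort : Prop := ∀ (ξ : List ℕ → ℕ) (r : ℕ) (η : List ℕ → Bool) (v : List ℕ), 2 ≤ r →
  InTree ξ v → ξ v = 0 → η v = false → ¬ Percolates ξ r η

def TaskRay : Prop := ∀ (ν : Measure ℕ), IsProbabilityMeasure ν → ν {0} = 0 →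
  ∀ᵐ ξ ∂(GW ν), ∀ n : ℕ, InTree ξ (List.replicate n 0) ∧
    (2 ≤ ξ (List.replicate n 0) → InTree ξ (List.replicate n 0 ++ [1]))

/-- Uses TaskMany, TaskGpos, TaskMeasG, TaskFort, TaskFortOf, TaskRay, TaskZip, TaskBern
(`Measure.ae_ae_of_ae_prod`). -/
def TaskEngA : Prop := ∀ (ν : Measure ℕ), IsProbabilityMeasure ν → ν {0} = 0 → 0 < ν {k | 2 ≤ k} →
  ∀ (r : ℕ) (p y : ℝ), 2 ≤ r → 0 ≤ p → p ≤ 1 → 0 ≤ y → y < 1 → p + (1 - p) * B ν r y ≤ y →
  ∀ᵐ ξ ∂(GW ν), Ini p {η | Percolates ξ r η} = 0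

/-! ### Trees with leaves, and the ray -/

/-- the tree is finite -/
def Fin' (ω : W) : Prop := {w | InTree (fun u => (ω u).1) w}.Finite

/-- all leaves are infected -/
def NL (ω : W) : Prop := ∀ w, InTree (fun u => (ω u).1) w → (ω w).1 = 0 → (ω w).2 = true

def TaskFinIff : Prop := ∀ ω : W, Fin' ω ↔ ∀ i, i < (ω []).1 → Fin' (sub i ω)

def TaskNLIff : Prop := ∀ ω : W, NL ω ↔ ((ω []).1 = 0 → (ω []).2 = true) ∧
  ∀ i, i < (ω []).1 → NL (sub i ω)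

def TaskMeasFin : Prop := MeasurableSet {ω : W | Fin' ω}

def TaskMeasNL : Prop := MeasurableSet {ω : W | NL ω}

/-- Uses TaskBranch, TaskAll, TaskBern. -/
def TaskRecE : Prop := ∀ (ν : Measure ℕ), IsProbabilityMeasure ν → ∀ p : ℝ, 0 ≤ p → p ≤ 1 →
  ∀ E : Set W, MeasurableSet E →
    (∀ ω : W, ω ∈ E ↔ ((ω []).1 = 0 → (ω []).2 = true) ∧ ∀ i, i < (ω []).1 → sub i ω ∈ E) →
    (P ν p E).toReal = (∫ k, (P ν p E).toReal ^ k ∂ν) - (1 - p) * (ν {0}).toReal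

/-- Uses TaskBranch, TaskAll, TaskBern. -/
def TaskRecF : Prop := ∀ (ν : Measure ℕ), IsProbabilityMeasure ν → ∀ p : ℝ, 0 ≤ p → p ≤ 1 →
  ∀ E : Set W, MeasurableSet E → (∀ ω : W, ω ∈ E ↔ ∀ i, i < (ω []).1 → sub i ω ∈ E) →
    (P ν p E).toReal = ∫ k, (P ν p E).toReal ^ k ∂ν

/-- Convexity of `s ↦ ∑ ν_k s^k - c` with a value `< 1` at `1` and `≥ 0` at `0`. -/
def TaskConv : Prop := ∀ (ν : Measure ℕ), IsProbabilityMeasure ν → ∀ c s e : ℝ, 0 < c →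
  0 ≤ s → s ≤ 1 → 0 ≤ e → e ≤ 1 → c ≤ (ν {0}).toReal → s = (∫ k, s ^ k ∂ν) - c →
  e = (∫ k, e ^ k ∂ν) - c → s = e

/-- Uses TaskRecE, TaskConv, TaskFinIff, TaskNLIff, TaskMeasFin, TaskMeasNL, TaskZip, TaskLeafFort,
TaskBern: `P NL = P (NL ∧ Fin')`, hence a.s. an infinite tree has a healthy leaf. -/
def TaskEngB : Prop := ∀ (ν : Measure ℕ), IsProbabilityMeasure ν → 0 < ν {0} → ∀ (r : ℕ) (p : ℝ),
  2 ≤ r → 0 ≤ p → p < 1 →
  ∀ᵐ ξ ∂(GW ν), {w | InTree ξ w}.Infinite → Ini p {η | Percolates ξ r η} = 0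

/-- Mean less than one: finite (Bernoulli's inequality `s^k ≥ 1 - k (1-s)`). Uses TaskRecF, TaskFinIff,
TaskMeasFin, TaskZip, TaskBern. -/
def TaskSubcrit : Prop := ∀ (ν : Measure ℕ), IsProbabilityMeasure ν →
  Integrable (fun k : ℕ => (k : ℝ)) ν → ∫ k, (k : ℝ) ∂ν < 1 →
  ∀ᵐ ξ ∂(GW ν), {w | InTree ξ w}.Finite

/-- `ξ = 1`: two adjacent healthy vertices `0^n, 0^(n+1)` block. Uses TaskFort. -/
def TaskOnes : Prop := ∀ (ν : Measure ℕ), IsProbabilityMeasure ν → ν {1} = 1 → ∀ (r : ℕ) (p : ℝ),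
  2 ≤ r → 0 ≤ p → p < 1 → ∀ᵐ ξ ∂(GW ν), Ini p {η | Percolates ξ r η} = 0

/-! ### Critical probability -/

/-- Coupling: the product law of parameter `p` is the image of that of parameter `q` and independent
marks; `Percolates` is increasing in `η`. -/
def TaskCoup : Prop := ∀ (ξ : List ℕ → ℕ) (r : ℕ) (p q : ℝ), 0 ≤ p → p ≤ q → q ≤ 1 →
  Ini q {η | Percolates ξ r η} = 0 → Ini p {η | Percolates ξ r η} = 0

/-- Uses TaskCoup. (At `p = 1` every vertex is infected.) -/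
def TaskPc : Prop := ∀ (ξ : List ℕ → ℕ) (r : ℕ) (p : ℝ), 0 ≤ p → p ≤ 1 →
  Ini p {η | Percolates ξ r η} = 0 → p ≤ pc ξ r

end Pool.Agent.Q219.GWB
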