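import Pool.Agent.Q219.GWB.Stmts

/-!
# The probability that `k` independent events all occur
-/

set_option autoImplicit false

namespace Pool.Agent.Q219.GWB.TAll

open MeasureTheory ProbabilityTheory Set Pool.Agent.Q219.GWB

theorem main : Pool.Agent.Q219.GWB.TaskAll := by
  intro Y _ L hL E hE k
  have h : {f : ℕ → Y | ∀ i, i < k → f i ∈ E} =
      Set.pi (↑(Finset.range k) : Set ℕ) (fun _ => E) := by
    ext f; simp [Set.mem_pi]
  rw [h, Measure.infinitePi_pi (μ := fun _ : ℕ => L) (fun i _ => hE)]
  simp

end Pool.Agent.Q219.GWB.TAll
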