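import Pool.Agent.Q219.GWB.Stmts

set_option autoImplicit false

namespace Pool.Agent.Q219.GWB.TBMono

open Pool.Agent.Q219.GWB
open MeasureTheory ProbabilityTheory Set Filter Topology

theorem main (h1 : TaskBtRange) (h2 : TaskBtMono) : Pool.Agent.Q219.GWB.TaskBMono := by
  intro ν hν r x y hx hxy hy
  have := hν
  have hint : ∀ z : ℝ, 0 ≤ z → z ≤ 1 → Integrable (fun k : ℕ => bt k r z) ν := by
    intro z hz0 hz1
    refine Integrable.of_bound (measurable_from_top (f := fun k : ℕ => bt k r z)).aestronglyMeasurable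
      1 (Eventually.of_forall fun k => ?_)
    rw [Real.norm_eq_abs, abs_le]
    have := h1 k r z hz0 hz1
    constructor <;> linarith [this.1, this.2]
  refine ⟨?_, ?_, ?_⟩
  · exact integral_mono (hint x hx (hxy.trans hy)) (hint y (hx.trans hxy) hy)
      fun k => h2 k r x y hx hxy hy
  · exact integral_nonneg fun k => (h1 k r x hx (hxy.trans hy)).1
  · calc B ν r y ≤ ∫ _ : ℕ, (1 : ℝ) ∂ν := by
          exact integral_mono (hint y (hx.trans hxy) hy) (integrable_const _)
            fun k => (h1 k r y (hx.trans hxy) hy).2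
      _ = 1 := by simp

end Pool.Agent.Q219.GWB.TBMono
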