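import Mathlib
import Pool.Agent.Q219.GWB.Stmts

set_option autoImplicit false

namespace Pool.Agent.Q219.GWB.TBern

open MeasureTheory ProbabilityTheory Set Filter Topology Pool.Agent.Q219.GWB

theorem main : Pool.Agent.Q219.GWB.TaskBern := by
  intro p h0 h1
  refine ⟨?_⟩
  simp only [bern, Measure.coe_add, Measure.coe_smul, Pi.add_apply, Pi.smul_apply, measure_univ,
    smul_eq_mul, mul_one]
  rw [← ENNReal.ofReal_add h0 (by linarith)]
  simp

end Pool.Agent.Q219.GWB.TBern
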