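import Pool.Agent.Q219.GWB.Stmts

set_option autoImplicit false

namespace Pool.Agent.Q219.GWB.TBin

open MeasureTheory ProbabilityTheory Set Filter Topology

variable {Y : Type} [MeasurableSpace Y]

/-- the cylinder -/
def cyl (E : Set Y) (k : ℕ) (S : Finset ℕ) : Set (ℕ → Y) :=
  Set.pi (Finset.range k : Finset ℕ) (fun i => if i ∈ S then Eᶜ else E)

theorem mem_cyl (E : Set Y) (k : ℕ) (S : Finset ℕ) (f : ℕ → Y) :
    f ∈ cyl E k S ↔ ∀ i, i < k → (f i ∉ E ↔ i ∈ S) := by
  unfold cyl
  simp only [Set.mem_pi, Finset.mem_coe, Finset.mem_range]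
  refine forall₂_congr fun i _ => ?_
  by_cases h : i ∈ S
  · simp [h]
  · simp [h]

theorem cyl_meas (E : Set Y) (hE : MeasurableSet E) (k : ℕ) (S : Finset ℕ) :
    MeasurableSet (cyl E k S) := by
  unfold cyl
  refine MeasurableSet.pi (Finset.countable_toSet _) fun i _ => ?_
  by_cases h : i ∈ S
  · simp only [h, if_true]; exact hE.compl
  · simp only [h, if_false]; exact hE

theorem cyl_measure (L : Measure Y) [IsProbabilityMeasure L] (E : Set Y) (hE : MeasurableSet E)
    (k : ℕ) (S : Finset ℕ) (hS : S ⊆ Finset.range k) :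
    ((Measure.infinitePi (fun _ : ℕ => L)) (cyl E k S)).toReal =
      (1 - (L E).toReal) ^ S.card * (L E).toReal ^ (k - S.card) := by
  unfold cyl
  rw [Measure.infinitePi_pi]
  · have h1 : ∀ i ∈ Finset.range k, L (if i ∈ S then Eᶜ else E) = if i ∈ S then L Eᶜ else L E := by
      intro i _
      by_cases h : i ∈ S
      · simp [h]
      · simp [h]
    rw [Finset.prod_congr rfl h1, Finset.prod_ite, Finset.prod_const, Finset.prod_const]
    have h2 : (Finset.range k).filter (fun i => i ∈ S) = S := by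
      ext i
      simp only [Finset.mem_filter]
      exact ⟨fun h => h.2, fun h => ⟨hS h, h⟩⟩
    have h3 : ((Finset.range k).filter (fun i => ¬ i ∈ S)).card = k - S.card := by
      have h4 : (Finset.range k).filter (fun i => ¬ i ∈ S) = Finset.range k \ S := by
        ext i
        simp only [Finset.mem_filter, Finset.mem_sdiff]
      rw [h4, Finset.card_sdiff_of_subset hS, Finset.card_range]
    rw [h2, h3, ENNReal.toReal_mul, ENNReal.toReal_pow, ENNReal.toReal_pow]
    congr 2
    rw [prob_compl_eq_one_sub hE, ENNReal.toReal_sub_of_le prob_le_one ENNReal.one_ne_top,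
      ENNReal.toReal_one]
  · intro i _
    by_cases h : i ∈ S
    · simp only [h, if_true]; exact hE.compl
    · simp only [h, if_false]; exact hE

theorem main : Pool.Agent.Q219.GWB.TaskBin := by
  classical
  intro Y _ L hL E hE k r
  obtain ⟨q, hq⟩ : ∃ q, q = (L E).toReal := ⟨_, rfl⟩
  obtain ⟨𝒮, hS⟩ : ∃ 𝒮 : Finset (Finset ℕ), 𝒮 = (Finset.range k).powerset.filter
    (fun S => S.card < r) := ⟨_, rfl⟩
  have h1 : {f : ℕ → Y | {i : ℕ | i < k ∧ f i ∉ E}.ncard < r} = ⋃ S ∈ 𝒮, cyl E k S := by
    ext f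
    simp only [Set.mem_setOf_eq, Set.mem_iUnion, exists_prop]
    have h2 : ∀ S : Finset ℕ, S ⊆ Finset.range k → f ∈ cyl E k S →
        {i : ℕ | i < k ∧ f i ∉ E} = (S : Set ℕ) := by
      intro S hS1 hf
      rw [mem_cyl] at hf
      ext i
      constructor
      · rintro ⟨hi, hi2⟩
        exact (hf i hi).1 hi2
      · intro hi
        have hik : i < k := Finset.mem_range.1 (hS1 hi)
        exact ⟨hik, (hf i hik).2 hi⟩
    constructor
    · intro h
      refine ⟨(Finset.range k).filter (fun i => f i ∉ E), ?_, ?_⟩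
      · have hf : f ∈ cyl E k ((Finset.range k).filter (fun i => f i ∉ E)) := by
          rw [mem_cyl]
          intro i hi
          rw [Finset.mem_filter, Finset.mem_range]
          exact ⟨fun h => ⟨hi, h⟩, fun h => h.2⟩
        have h3 := h2 _ (Finset.filter_subset _ _) hf
        rw [h3, Set.ncard_coe_finset] at h
        rw [hS, Finset.mem_filter, Finset.mem_powerset]
        exact ⟨Finset.filter_subset _ _, h⟩
      · rw [mem_cyl]
        intro i hi
        rw [Finset.mem_filter, Finset.mem_range]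
        exact ⟨fun h => ⟨hi, h⟩, fun h => h.2⟩
    · rintro ⟨S, hS1, hS2⟩
      rw [hS, Finset.mem_filter, Finset.mem_powerset] at hS1
      rw [h2 S hS1.1 hS2, Set.ncard_coe_finset]
      exact hS1.2
  have hdisj : (𝒮 : Set (Finset ℕ)).PairwiseDisjoint (cyl E k) := by
    intro S hS1 S' hS2 hne
    rw [Function.onFun, Set.disjoint_left]
    intro f hf hf'
    rw [mem_cyl] at hf hf'
    apply hne
    rw [Finset.mem_coe, hS, Finset.mem_filter, Finset.mem_powerset] at hS1 hS2
    ext i
    constructor
    · intro hi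
      have hik : i < k := Finset.mem_range.1 (hS1.1 hi)
      exact (hf' i hik).1 ((hf i hik).2 hi)
    · intro hi
      have hik : i < k := Finset.mem_range.1 (hS2.1 hi)
      exact (hf i hik).1 ((hf' i hik).2 hi)
  rw [h1, measure_biUnion_finset hdisj (fun S _ => cyl_meas E hE k S),
    ENNReal.toReal_sum (fun S _ => measure_ne_top _ _)]
  have h3 : ∑ S ∈ 𝒮, ((Measure.infinitePi (fun _ : ℕ => L)) (cyl E k S)).toReal =
      ∑ S ∈ 𝒮, (1 - q) ^ S.card * q ^ (k - S.card) := by
    refine Finset.sum_congr rfl fun S hS1 => ?_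
    rw [hS, Finset.mem_filter, Finset.mem_powerset] at hS1
    rw [cyl_measure L E hE k S hS1.1, hq]
  have h4 : ∑ S ∈ 𝒮, (1 - q) ^ S.card * q ^ (k - S.card) =
      ∑ S ∈ (Finset.range k).powerset, (fun j : ℕ => if j < r then (1 - q) ^ j * q ^ (k - j) else 0)
        S.card := by
    rw [hS, Finset.sum_filter]
  have h5 := Finset.sum_powerset_apply_card (x := Finset.range k)
    (fun j : ℕ => if j < r then (1 - q) ^ j * q ^ (k - j) else (0 : ℝ))
  rw [Finset.card_range] at h5
  rw [h3, h4, h5, ← hq, bt]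
  have h6 : ∑ j ∈ Finset.range (k + 1), ((k.choose j : ℝ) * (1 - q) ^ j * q ^ (k - j)) = 1 := by
    have := add_pow (1 - q) q k
    rw [sub_add_cancel, one_pow] at this
    refine Eq.trans (Finset.sum_congr rfl fun j _ => ?_) this.symm
    ring
  have h7 : ∑ j ∈ Finset.Icc r k, ((k.choose j : ℝ) * (1 - q) ^ j * (1 - (1 - q)) ^ (k - j)) =
      ∑ j ∈ Finset.range (k + 1), if j < r then 0 else
        ((k.choose j : ℝ) * (1 - q) ^ j * q ^ (k - j)) := by
    have e1 : Finset.Icc r k = (Finset.range (k + 1)).filter (fun j => ¬ j < r) := by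
      ext j
      simp only [Finset.mem_Icc, Finset.mem_filter, Finset.mem_range, not_lt]
      omega
    rw [e1, Finset.sum_filter]
    refine Finset.sum_congr rfl fun j _ => ?_
    by_cases h : j < r
    · simp [h]
    · simp [h]
  have h8 : (∑ m ∈ Finset.range (k + 1), k.choose m •
      (if m < r then (1 - q) ^ m * q ^ (k - m) else (0 : ℝ))) +
      (∑ j ∈ Finset.range (k + 1), if j < r then 0 else
        ((k.choose j : ℝ) * (1 - q) ^ j * q ^ (k - j))) =
      ∑ j ∈ Finset.range (k + 1), ((k.choose j : ℝ) * (1 - q) ^ j * q ^ (k - j)) := by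
    rw [← Finset.sum_add_distrib]
    refine Finset.sum_congr rfl fun j _ => ?_
    by_cases h : j < r
    · simp only [h, if_true, nsmul_eq_mul]
      ring
    · simp only [h, if_false, smul_zero]
      ring
  rw [h7]
  linarith

end Pool.Agent.Q219.GWB.TBin
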