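import Mathlib
import Pool.Agent.Q219.GWB.Stmts

set_option autoImplicit false

namespace Pool.Agent.Q219.GWB.TBranch

open MeasureTheory ProbabilityTheory Set Filter Topology

/-- gluing a root value and the values on the other words -/
def glue {X : Type} (z : X × (ℕ × List ℕ → X)) : List ℕ → X
  | [] => z.1
  | i :: u => z.2 (i, u)

theorem measurable_glue {X : Type} [MeasurableSpace X] : Measurable (glue (X := X)) := by
  refine measurable_pi_lambda _ fun v => ?_
  cases v with
  | nil => exact measurable_fst
  | cons i u => exact (measurable_pi_apply (i, u)).comp measurable_snd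

theorem key {X : Type} [MeasurableSpace X] (ρ : Measure X) [IsProbabilityMeasure ρ] :
    (ρ.prod (Measure.infinitePi (fun _ : ℕ × List ℕ => ρ))).map glue =
      Measure.infinitePi (fun _ : List ℕ => ρ) := by
  classical
  apply Measure.eq_infinitePi
  intro s t ht
  rw [Measure.map_apply measurable_glue (MeasurableSet.pi s.countable_toSet fun i _ => ht i)]
  have hinj : Function.Injective (fun p : ℕ × List ℕ => p.1 :: p.2) := by
    rintro ⟨a, b⟩ ⟨c, d⟩ h
    simpa using h
  have hpre : glue ⁻¹' (Set.pi s t) = {x | [] ∈ s → x ∈ t []} ×ˢ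
      (Set.pi ((s.preimage (fun p : ℕ × List ℕ => p.1 :: p.2) hinj.injOn : Finset _) :
        Set (ℕ × List ℕ)) (fun p => t (p.1 :: p.2))) := by
    ext ⟨x, g⟩
    constructor
    · intro h
      refine ⟨fun h0 => h [] h0, fun p hp => ?_⟩
      exact h (p.1 :: p.2) (by simpa using hp)
    · rintro ⟨h1, h2⟩ v hv
      cases v with
      | nil => exact h1 hv
      | cons i u => exact h2 (i, u) (by simpa using hv)
  rw [hpre, Measure.prod_prod, Measure.infinitePi_pi (fun _ : ℕ × List ℕ => ρ) (fun p _ => ht _)]
  have hprod : ∏ p ∈ s.preimage (fun p : ℕ × List ℕ => p.1 :: p.2) hinj.injOn,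
      ρ (t (p.1 :: p.2)) = ∏ v ∈ s.erase [], ρ (t v) := by
    refine Finset.prod_bij (fun p _ => p.1 :: p.2) ?_ ?_ ?_ ?_
    · intro p hp
      simp only [Finset.mem_preimage] at hp
      simp [hp]
    · intro p _ q _ h
      exact hinj h
    · intro v hv
      cases v with
      | nil => simp at hv
      | cons i u =>
        refine ⟨(i, u), ?_, rfl⟩
        simp only [Finset.mem_erase] at hv
        simpa using hv.2
    · intro p _
      rfl
  rw [hprod]
  by_cases h : [] ∈ s
  · have : {x | [] ∈ s → x ∈ t []} = t [] := by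
      ext x
      simp [h]
    rw [this]
    exact Finset.mul_prod_erase s (fun v => ρ (t v)) h
  · have : {x | [] ∈ s → x ∈ t []} = Set.univ := by
      ext x
      simp [h]
    rw [this, measure_univ, one_mul, Finset.erase_eq_of_notMem h]

theorem main : Pool.Agent.Q219.GWB.TaskBranch := by
  intro X mX ρ hρ
  have hφ : Measurable (fun ω : List ℕ → X => (ω [], fun i : ℕ => fun u : List ℕ => ω (i :: u))) := by
    refine Measurable.prodMk (measurable_pi_apply _) ?_
    refine measurable_pi_lambda _ fun i => measurable_pi_lambda _ fun u => measurable_pi_apply _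
  have hc := Measure.infinitePi_map_curry (fun (_ : ℕ) (_ : List ℕ) => ρ)
  rw [← hc, ← key ρ, Measure.map_map hφ measurable_glue]
  have hcomp : ((fun ω : List ℕ → X => (ω [], fun i : ℕ => fun u : List ℕ => ω (i :: u))) ∘ glue) =
      Prod.map id (MeasurableEquiv.curry ℕ (List ℕ) X) := by
    funext z
    rfl
  rw [hcomp, ← Measure.map_prod_map _ _ measurable_id (MeasurableEquiv.measurable _), Measure.map_id]

end Pool.Agent.Q219.GWB.TBranch

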