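import Pool.Agent.Q219.GWB.Stmts

set_option autoImplicit false

namespace Pool.Agent.Q219.GWB.TBtMono

open Pool.Agent.Q219.GWB

theorem bt_eq (k r : ℕ) (y : ℝ) : bt k r y =
    ∑ j ∈ Finset.Ico r (k + 1), (k.choose j : ℝ) * y ^ j * (1 - y) ^ (k - j) := by
  unfold bt
  congr 1

theorem bt_zero (k : ℕ) (y : ℝ) : bt k 0 y = 1 := by
  rw [bt_eq, ← Finset.range_eq_Ico]
  have h := add_pow y (1 - y) k
  have h1 : y + (1 - y) = 1 := by ring
  rw [h1, one_pow] at h
  refine Eq.trans ?_ h.symm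
  apply Finset.sum_congr rfl
  intro j _
  ring

theorem bt_rec (k r : ℕ) (y : ℝ) :
    bt (k + 1) (r + 1) y = y * bt k r y + (1 - y) * bt k (r + 1) y := by
  rw [bt_eq (k + 1) (r + 1), bt_eq k r, bt_eq k (r + 1)]
  rw [← Finset.sum_Ico_add' (fun j => ((k + 1).choose j : ℝ) * y ^ j * (1 - y) ^ (k + 1 - j)) r (k + 1) 1]
  have h1 : ∀ x ∈ Finset.Ico r (k + 1),
      ((k + 1).choose (x + 1) : ℝ) * y ^ (x + 1) * (1 - y) ^ (k + 1 - (x + 1)) =
      y * ((k.choose x : ℝ) * y ^ x * (1 - y) ^ (k - x)) +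
        (k.choose (x + 1) : ℝ) * y ^ (x + 1) * (1 - y) ^ (k - x) := by
    intro x _
    rw [Nat.choose_succ_succ]
    have h2 : k + 1 - (x + 1) = k - x := by omega
    rw [h2]
    push_cast
    ring
  rw [Finset.sum_congr rfl h1, Finset.sum_add_distrib, ← Finset.mul_sum]
  congr 1
  rcases Nat.lt_or_ge k r with hkr | hkr
  · rw [Finset.Ico_eq_empty (by omega), Finset.Ico_eq_empty (by omega)]
    simp
  · rw [Finset.sum_Ico_succ_top hkr]
    rw [← Finset.sum_Ico_add' (fun j => (k.choose j : ℝ) * y ^ j * (1 - y) ^ (k - j)) r k 1]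
    rw [Nat.choose_succ_self, Finset.mul_sum]
    have h3 : ∀ x ∈ Finset.Ico r k, (k.choose (x + 1) : ℝ) * y ^ (x + 1) * (1 - y) ^ (k - x) =
        (1 - y) * ((k.choose (x + 1) : ℝ) * y ^ (x + 1) * (1 - y) ^ (k - (x + 1))) := by
      intro x hx
      rw [Finset.mem_Ico] at hx
      have h4 : k - x = (k - (x + 1)) + 1 := by omega
      rw [h4, pow_succ]
      ring
    rw [Finset.sum_congr rfl h3]
    simp

theorem bt_anti (k r : ℕ) (y : ℝ) (h0 : 0 ≤ y) (h1 : y ≤ 1) : bt k (r + 1) y ≤ bt k r y := by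
  rw [bt_eq, bt_eq]
  apply Finset.sum_le_sum_of_subset_of_nonneg
  · intro j hj
    rw [Finset.mem_Ico] at hj ⊢
    omega
  · intro j _ _
    have h2 : 0 ≤ 1 - y := by linarith
    positivity

theorem main : Pool.Agent.Q219.GWB.TaskBtMono := by
  intro k
  induction k with
  | zero =>
    intro r x y _ _ _
    rcases Nat.eq_zero_or_pos r with h | h
    · subst h
      rw [bt_zero, bt_zero]
    · rw [bt_eq, bt_eq, Finset.Ico_eq_empty (by omega)]
      simp
  | succ k ih =>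
    intro r x y hx hxy hy
    rcases Nat.eq_zero_or_pos r with h | h
    · subst h
      rw [bt_zero, bt_zero]
    · obtain ⟨r, rfl⟩ : ∃ m, r = m + 1 := ⟨r - 1, by omega⟩
      rw [bt_rec, bt_rec]
      have h1 := ih r x y hx hxy hy
      have h2 := ih (r + 1) x y hx hxy hy
      have h3 := bt_anti k r x hx (by linarith)
      have h4 : 0 ≤ y := by linarith
      have h5 : 0 ≤ 1 - y := by linarith
      nlinarith [mul_le_mul_of_nonneg_left h1 h4, mul_le_mul_of_nonneg_left h2 h5,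
        mul_nonneg (sub_nonneg.2 hxy) (sub_nonneg.2 h3)]

end Pool.Agent.Q219.GWB.TBtMono
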