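import Pool.Agent.Q219.GWB.Stmts

set_option autoImplicit false

namespace Pool.Agent.Q219.GWB.TBtRange

open Pool.Agent.Q219.GWB
open MeasureTheory ProbabilityTheory Set Filter Topology

theorem main : Pool.Agent.Q219.GWB.TaskBtRange := by
  intro k r y h0 h1
  have hnn : ∀ j ∈ Finset.range (k + 1), 0 ≤ (k.choose j : ℝ) * y ^ j * (1 - y) ^ (k - j) := by
    intro j _
    have : 0 ≤ 1 - y := by linarith
    positivity
  have hsub : Finset.Icc r k ⊆ Finset.range (k + 1) := by
    intro j hj
    rw [Finset.mem_Icc] at hj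
    rw [Finset.mem_range]
    omega
  have htot : ∑ j ∈ Finset.range (k + 1), (k.choose j : ℝ) * y ^ j * (1 - y) ^ (k - j) = 1 := by
    have h := add_pow y (1 - y) k
    rw [show y + (1 - y) = 1 by ring, one_pow] at h
    refine Eq.trans ?_ h.symm
    refine Finset.sum_congr rfl fun j _ => ?_
    ring
  refine ⟨Finset.sum_nonneg fun j hj => hnn j (hsub hj), ?_⟩
  unfold bt
  calc _ ≤ ∑ j ∈ Finset.range (k + 1), (k.choose j : ℝ) * y ^ j * (1 - y) ^ (k - j) :=
        Finset.sum_le_sum_of_subset_of_nonneg hsub fun j hj _ => hnn j hj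
    _ = 1 := htot

end Pool.Agent.Q219.GWB.TBtRange
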