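import Pool.Agent.Q219.GWB.Stmts

set_option autoImplicit false

namespace Pool.Agent.Q219.GWB.TConv

open Pool.Agent.Q219.GWB MeasureTheory

theorem main : Pool.Agent.Q219.GWB.TaskConv := by
  intro ν hν c s e hc hs0 hs1 he0 he1 _ hs he
  have hint : ∀ x : ℝ, 0 ≤ x → x ≤ 1 → Integrable (fun k : ℕ => x ^ k) ν := fun x h0 h1 =>
    Integrable.of_bound (C := 1) (Measurable.of_discrete.aestronglyMeasurable)
      (Filter.Eventually.of_forall fun k => by
        rw [Real.norm_of_nonneg (pow_nonneg h0 k)]; exact pow_le_one₀ h0 h1)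
  have key : ∀ a b : ℝ, 0 ≤ a → a < b → b ≤ 1 → a = (∫ k, a ^ k ∂ν) - c →
      b = (∫ k, b ^ k ∂ν) - c → False := by
    intro a b ha hab hb h1 h2
    have h3 : (∫ k, (1 : ℝ) ^ k ∂ν) = 1 := by simp
    have hb1 : b < 1 := by
      rcases hb.lt_or_eq with h | h
      · exact h
      · rw [h, h3] at h2; linarith
    have ha1 : 0 < 1 - a := by linarith
    set t := (b - a) / (1 - a) with ht
    have ht0 : 0 < t := div_pos (by linarith) ha1
    have ht1 : t ≤ 1 := by rw [ht, div_le_one ha1]; linarith
    have hbt : b = (1 - t) * a + t * 1 := by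
      have h4 : t * (1 - a) = b - a := div_mul_cancel₀ _ ha1.ne'
      linarith
    have h5 : (∫ k, b ^ k ∂ν) ≤ ∫ k, ((1 - t) * a ^ k + t * (1 : ℝ) ^ k) ∂ν := by
      apply integral_mono (hint b (by linarith) hb)
        (((hint a ha (by linarith)).const_mul _).add ((hint 1 zero_le_one le_rfl).const_mul _))
      intro k
      have h6 := (convexOn_pow k).2 (x := a) (y := (1 : ℝ)) (Set.mem_Ici.2 ha)
        (Set.mem_Ici.2 zero_le_one) (sub_nonneg.2 ht1) ht0.le (sub_add_cancel 1 t)
      simp only [smul_eq_mul] at h6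
      rw [← hbt] at h6
      exact h6
    rw [integral_add ((hint a ha (by linarith)).const_mul _)
      ((hint 1 zero_le_one le_rfl).const_mul _), integral_const_mul, integral_const_mul, h3] at h5
    have h7 : (∫ k, a ^ k ∂ν) = a + c := by linarith
    have h8 : (∫ k, b ^ k ∂ν) = b + c := by linarith
    rw [h7, h8] at h5
    nlinarith [mul_pos ht0 hc]
  rcases lt_trichotomy s e with h | h | h
  · exact (key s e hs0 h he1 hs he).elim
  · exact h
  · exact (key e s he0 h hs1 he hs).elim

end Pool.Agent.Q219.GWB.TConv
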