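import Pool.Agent.Q219.GWB.Stmts

set_option autoImplicit false

namespace Pool.Agent.Q219.GWB.TCoup

open MeasureTheory ProbabilityTheory Set Filter Topology Pool.Agent.Q219.GWB

theorem bern_prob {p : ℝ} (h0 : 0 ≤ p) (h1 : p ≤ 1) : IsProbabilityMeasure (bern p) := by
  refine ⟨?_⟩
  unfold bern
  simp only [Measure.coe_add, Measure.coe_smul, Pi.add_apply, Pi.smul_apply, measure_univ,
    smul_eq_mul, mul_one]
  rw [← ENNReal.ofReal_add h0 (by linarith)]
  simp

theorem bern_true {p : ℝ} : bern p {true} = ENNReal.ofReal p := by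
  unfold bern
  simp

theorem infected_mono (ξ : List ℕ → ℕ) (r : ℕ) {η η' : List ℕ → Bool}
    (h : ∀ v, η v = true → η' v = true) : ∀ t, infected ξ r η t ⊆ infected ξ r η' t := by
  intro t
  induction t with
  | zero =>
    intro v hv
    exact ⟨hv.1, h v hv.2⟩
  | succ t ih =>
    intro v hv
    rcases hv with hv | hv
    · exact Or.inl (ih hv)
    · exact Or.inr ⟨hv.1, hv.2.trans (encard_le_encard (inter_subset_inter_right _ ih))⟩

theorem perc_mono (ξ : List ℕ → ℕ) (r : ℕ) {η η' : List ℕ → Bool}
    (h : ∀ v, η v = true → η' v = true) (hp : Percolates ξ r η) : Percolates ξ r η' := by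
  intro v hv
  obtain ⟨t, ht⟩ := hp v hv
  exact ⟨t, infected_mono ξ r h t ht⟩

theorem le_encard_iff (S : Set (List ℕ)) (r : ℕ) :
    (r : ℕ∞) ≤ S.encard ↔ ∃ F : Finset (List ℕ), F.card = r ∧ ∀ u ∈ F, u ∈ S := by
  constructor
  · intro h
    obtain ⟨T, hT, hc⟩ := exists_subset_encard_eq h
    have hfin : T.Finite := by
      rw [← encard_lt_top_iff, hc]
      exact ENat.natCast_lt_top r
    refine ⟨hfin.toFinset, ?_, fun u hu => hT (hfin.mem_toFinset.mp hu)⟩
    have h2 := hfin.encard_eq_coe_toFinset_card
    rw [hc] at h2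
    exact_mod_cast h2.symm
  · rintro ⟨F, hF, hs⟩
    have h2 : (F : Set (List ℕ)).encard ≤ S.encard := encard_le_encard fun u hu => hs u hu
    rw [encard_coe_eq_coe_finsetCard, hF] at h2
    exact h2

theorem meas_inf (ξ : List ℕ → ℕ) (r : ℕ) : ∀ (t : ℕ) (v : List ℕ),
    MeasurableSet {η : List ℕ → Bool | v ∈ infected ξ r η t} := by
  intro t
  induction t with
  | zero =>
    intro v
    have e : {η : List ℕ → Bool | v ∈ infected ξ r η 0} =
        {η | InTree ξ v} ∩ {η | η v = true} := rfl
    rw [e]
    refine (MeasurableSet.const _).inter ?_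
    have hm : Measurable (fun η : List ℕ → Bool => η v) := measurable_pi_apply v
    exact hm (MeasurableSet.singleton true)
  | succ t ih =>
    intro v
    have e : {η : List ℕ → Bool | v ∈ infected ξ r η (t + 1)} =
        {η | v ∈ infected ξ r η t} ∪ ({η | InTree ξ v} ∩
          ⋃ F : Finset (List ℕ), ({η | F.card = r} ∩
            ⋂ u : F, ({η | (u : List ℕ) ∈ nbrs ξ v} ∩ {η | (u : List ℕ) ∈ infected ξ r η t}))) := by
      ext η
      constructor
      · intro h
        rcases h with h | h
        · exact Or.inl h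
        · refine Or.inr ⟨h.1, ?_⟩
          obtain ⟨F, hF, hs⟩ := (le_encard_iff _ r).mp h.2
          refine mem_iUnion.mpr ⟨F, hF, ?_⟩
          refine mem_iInter.mpr fun u => ?_
          exact ⟨(hs u u.2).1, (hs u u.2).2⟩
      · intro h
        rcases h with h | h
        · exact Or.inl h
        · refine Or.inr ⟨h.1, ?_⟩
          obtain ⟨F, hF, hs⟩ := mem_iUnion.mp h.2
          refine (le_encard_iff _ r).mpr ⟨F, hF, fun u hu => ?_⟩
          have h3 := mem_iInter.mp hs ⟨u, hu⟩
          exact ⟨h3.1, h3.2⟩
    rw [e]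
    refine (ih v).union ((MeasurableSet.const _).inter (MeasurableSet.iUnion fun F =>
      (MeasurableSet.const _).inter (MeasurableSet.iInter fun u =>
        (MeasurableSet.const _).inter (ih u))))

theorem meas_perc (ξ : List ℕ → ℕ) (r : ℕ) :
    MeasurableSet {η : List ℕ → Bool | Percolates ξ r η} := by
  have e : {η : List ℕ → Bool | Percolates ξ r η} =
      ⋂ v : List ℕ, ({η | ¬ InTree ξ v} ∪ ⋃ t : ℕ, {η | v ∈ infected ξ r η t}) := by
    ext η
    constructor
    · intro h
      refine mem_iInter.mpr fun v => ?_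
      by_cases hv : InTree ξ v
      · obtain ⟨t, ht⟩ := h v hv
        exact Or.inr (mem_iUnion.mpr ⟨t, ht⟩)
      · exact Or.inl hv
    · intro h v hv
      rcases mem_iInter.mp h v with h2 | h2
      · exact absurd hv h2
      · obtain ⟨t, ht⟩ := mem_iUnion.mp h2
        exact ⟨t, ht⟩
  rw [e]
  exact MeasurableSet.iInter fun v => (MeasurableSet.const _).union
    (MeasurableSet.iUnion fun t => meas_inf ξ r t v)

theorem map_and {p q s : ℝ} (hq0 : 0 ≤ q) (hq1 : q ≤ 1) (hs0 : 0 ≤ s) (hs1 : s ≤ 1)
    (hp : p = q * s) :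
    ((bern q).prod (bern s)).map (fun z : Bool × Bool => z.1 && z.2) = bern p := by
  have hPq := bern_prob hq0 hq1
  have hPs := bern_prob hs0 hs1
  have hp0 : 0 ≤ p := by rw [hp]; positivity
  have hp1 : p ≤ 1 := by rw [hp]; nlinarith
  have hPp := bern_prob hp0 hp1
  have hm : Measurable (fun z : Bool × Bool => z.1 && z.2) := measurable_of_countable _
  have ht : ((bern q).prod (bern s)).map (fun z : Bool × Bool => z.1 && z.2) {true} =
      bern p {true} := by
    rw [Measure.map_apply hm (MeasurableSet.singleton true)]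
    have e : (fun z : Bool × Bool => z.1 && z.2) ⁻¹' {true} = ({true} : Set Bool) ×ˢ {true} := by
      ext ⟨a, b⟩
      simp
    rw [e, Measure.prod_prod, bern_true, bern_true, bern_true, hp, ENNReal.ofReal_mul hq0]
  have hPm : IsProbabilityMeasure
      (((bern q).prod (bern s)).map (fun z : Bool × Bool => z.1 && z.2)) :=
    Measure.isProbabilityMeasure_map hm.aemeasurable
  refine Measure.ext_of_singleton fun a => ?_
  rcases a with _ | _
  · have e : ({false} : Set Bool) = {true}ᶜ := by
      ext b
      simp
    rw [e, prob_compl_eq_one_sub (MeasurableSet.singleton true),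
      prob_compl_eq_one_sub (MeasurableSet.singleton true), ht]
  · exact ht

theorem main : TaskCoup := by
  intro ξ r p q hp0 hpq hq1 hz
  rcases hpq.lt_or_eq with hlt | heq
  · have hq0 : 0 < q := lt_of_le_of_lt hp0 hlt
    set s : ℝ := p / q with hs
    have hs0 : 0 ≤ s := div_nonneg hp0 hq0.le
    have hs1 : s ≤ 1 := (div_le_one hq0).mpr hpq
    have hps : p = q * s := by rw [hs]; field_simp
    have hPq := bern_prob hq0.le hq1
    have hPs := bern_prob hs0 hs1
    have hPp := bern_prob hp0 (hpq.trans hq1)
    set μ : Measure (List ℕ → Bool × Bool) :=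
      Measure.infinitePi (fun _ : List ℕ => (bern q).prod (bern s)) with hμ
    have h1 : μ.map (fun x i => (x i).1) = Ini q := by
      rw [hμ, Measure.infinitePi_map_pi (f := fun _ => Prod.fst) _ (fun _ => measurable_fst)]
      unfold Ini
      congr 1
      funext i
      rw [Measure.map_fst_prod, measure_univ, one_smul]
    have h2 : μ.map (fun x i => ((x i).1 && (x i).2)) = Ini p := by
      rw [hμ, Measure.infinitePi_map_pi (f := fun _ => fun z : Bool × Bool => z.1 && z.2) _
        (fun _ => measurable_of_countable _)]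
      unfold Ini
      congr 1
      funext i
      exact map_and hq0.le hq1 hs0 hs1 hps
    have hm2 : Measurable (fun (x : List ℕ → Bool × Bool) i => ((x i).1 && (x i).2)) := by
      refine measurable_pi_lambda _ fun i => ?_
      exact (measurable_of_countable (fun z : Bool × Bool => z.1 && z.2)).comp
        (measurable_pi_apply i)
    have hm1 : Measurable (fun (x : List ℕ → Bool × Bool) i => (x i).1) := by
      refine measurable_pi_lambda _ fun i => ?_
      exact measurable_fst.comp (measurable_pi_apply i)
    rw [← h2, Measure.map_apply hm2 (meas_perc ξ r)]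
    rw [← h1, Measure.map_apply hm1 (meas_perc ξ r)] at hz
    refine measure_mono_null ?_ hz
    intro x hx
    refine perc_mono ξ r ?_ hx
    intro v hv
    have hv' : ((x v).1 && (x v).2) = true := hv
    exact (Bool.and_eq_true_iff.mp hv').1
  · rw [heq]
    exact hz

end Pool.Agent.Q219.GWB.TCoup
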