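import Pool.Agent.Q219.GWB.Stmts

/-! # `TaskCritA` -/

set_option autoImplicit false

namespace Pool.Agent.Q219.GWB.TCritA

open MeasureTheory ProbabilityTheory Set Filter Topology
open Pool.Agent.Q219.GWB

theorem bt_cont (k r : ℕ) : Continuous (fun y => bt k r y) := by
  unfold bt
  fun_prop

/-- the integral on the right -/
theorem rhs (d : ℝ) (h0 : 0 < d) (h1 : d ≤ 1) :
    ∫ y in d..1, (y - d * (1 - y)) / y ^ 2 = (1 + d) * (-Real.log d) + d - 1 := by
  have hpos : ∀ x ∈ uIcc d 1, 0 < x := by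
    intro x hx
    rw [uIcc_of_le h1] at hx
    exact lt_of_lt_of_le h0 hx.1
  have h := intervalIntegral.integral_eq_sub_of_hasDerivAt
    (f := fun y => (1 + d) * Real.log y + d * y⁻¹) (f' := fun y => (y - d * (1 - y)) / y ^ 2)
    (a := d) (b := 1) (fun x hx => by
      have hx0 : x ≠ 0 := (hpos x hx).ne'
      have h2 : HasDerivAt (fun y => (1 + d) * Real.log y + d * y⁻¹)
          ((1 + d) * x⁻¹ + d * -(x ^ 2)⁻¹) x :=
        ((Real.hasDerivAt_log hx0).const_mul (1 + d)).add ((hasDerivAt_inv hx0).const_mul d)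
      have e : (x - d * (1 - x)) / x ^ 2 = (1 + d) * x⁻¹ + d * -(x ^ 2)⁻¹ := by
        field_simp
        ring
      rw [e]
      exact h2) (by
      apply ContinuousOn.intervalIntegrable
      apply ContinuousOn.div
      · fun_prop
      · fun_prop
      · intro x hx
        exact pow_ne_zero 2 (hpos x hx).ne')
  rw [h]
  simp only [Real.log_one, inv_one]
  rw [mul_inv_cancel₀ h0.ne']
  ring

theorem main (hInt : TaskInt) (hBt : TaskBtRange) : TaskCritA := by
  intro ν hν r p hr hk hp0 hp1 hd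
  by_contra hcon
  push Not at hcon
  obtain ⟨d, hdd⟩ : ∃ d : ℝ, d = p / (1 - p) := ⟨_, rfl⟩
  rw [← hdd] at hd
  have hp1' : 0 < 1 - p := by linarith
  have hd0 : 0 < d := by rw [hdd]; positivity
  have hr1 : (0 : ℝ) < (r : ℝ) - 1 := by
    have : (2 : ℝ) ≤ r := by exact_mod_cast hr
    linarith
  obtain ⟨b, hb⟩ : ∃ b : ℝ, b = ∫ k, (k : ℝ) ∂ν := ⟨_, rfl⟩
  rw [← hb] at hd
  have hb0 : 0 ≤ b := by
    rw [hb]
    exact integral_nonneg fun k => Nat.cast_nonneg k
  have hlog : Real.log d < -1 - b / ((r : ℝ) - 1) := (Real.log_lt_iff_lt_exp hd0).2 hd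
  have hbr : 0 ≤ b / ((r : ℝ) - 1) := div_nonneg hb0 hr1.le
  have hd1 : d < 1 := by
    rw [← Real.log_neg_iff hd0]
    linarith
  -- the lower bound for `B`
  have hB : ∀ y : ℝ, 0 ≤ y → y < 1 → y - d * (1 - y) ≤ B ν r y := by
    intro y hy0 hy1
    have h1 := hcon y hy0 hy1
    have h2 : d * (1 - p) = p := by
      rw [hdd]
      field_simp
    have h3 : (1 - p) * (y - d * (1 - y)) < (1 - p) * B ν r y := by
      have : (1 - p) * (y - d * (1 - y)) = y - p := by
        have : (1 - p) * (y - d * (1 - y)) = (1 - p) * y - (d * (1 - p)) * (1 - y) := by ring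
        rw [this, h2]
        ring
      rw [this]
      linarith
    exact (lt_of_mul_lt_mul_left h3 hp1'.le).le
  -- the truncated function
  obtain ⟨g, hg⟩ : ∃ g : ℝ → ℝ, g = fun y => max d (min y 1) := ⟨_, rfl⟩
  have hgc : Continuous g := by
    rw [hg]
    fun_prop
  have hg1 : ∀ y, d ≤ g y := fun y => by rw [hg]; exact le_max_left _ _
  have hg2 : ∀ y, g y ≤ 1 := fun y => by rw [hg]; exact max_le hd1.le (min_le_right _ _)
  have hg3 : ∀ y ∈ Ioo d 1, g y = y := by
    intro y hy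
    rw [hg]
    simp only
    rw [min_eq_left hy.2.le, max_eq_right hy.1.le]
  obtain ⟨f, hf⟩ : ∃ f : ℝ → ℕ → ℝ, f = fun y k => bt k r (g y) / (g y) ^ 2 := ⟨_, rfl⟩
  have hfm : Measurable (Function.uncurry f) := by
    rw [hf]
    refine measurable_from_prod_countable_left fun k => ?_
    refine Continuous.measurable ?_
    refine ((bt_cont k r).comp hgc).div (hgc.pow 2) fun y => ?_
    exact pow_ne_zero 2 (lt_of_lt_of_le hd0 (hg1 y)).ne'
  have hfb : ∀ z : ℝ × ℕ, ‖Function.uncurry f z‖ ≤ 1 / d ^ 2 := by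
    rintro ⟨y, k⟩
    have h1 := hBt k r (g y) (hd0.le.trans (hg1 y)) (hg2 y)
    have h2 : 0 < g y := lt_of_lt_of_le hd0 (hg1 y)
    rw [hf]
    simp only [Function.uncurry_apply_pair]
    rw [Real.norm_of_nonneg (div_nonneg h1.1 (by positivity))]
    exact div_le_div₀ zero_le_one h1.2 (by positivity) (pow_le_pow_left₀ hd0.le (hg1 y) 2)
  obtain ⟨μ, hμ⟩ : ∃ μ : Measure ℝ, μ = volume.restrict (Ioo d 1) := ⟨_, rfl⟩
  have : IsFiniteMeasure μ := by
    rw [hμ]
    infer_instance
  have hfi : Integrable (Function.uncurry f) (μ.prod ν) :=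
    Integrable.of_bound hfm.aestronglyMeasurable (1 / d ^ 2) (Filter.Eventually.of_forall hfb)
  have hswap := integral_integral_swap hfi
  -- the upper bound
  have hup : ∫ k, (∫ y, f y k ∂μ) ∂ν ≤ b / ((r : ℝ) - 1) := by
    have h1 : ∀ k : ℕ, ∫ y, f y k ∂μ ≤ (k : ℝ) / ((r : ℝ) - 1) := by
      intro k
      have h2 := hInt k r d hr hd0 hd1.le
      rw [intervalIntegral.integral_of_le hd1.le, integral_Ioc_eq_integral_Ioo] at h2
      have h3 : ∫ y, f y k ∂μ = ∫ y in Ioo d 1, bt k r y / y ^ 2 := by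
        rw [hμ]
        refine setIntegral_congr_fun measurableSet_Ioo fun y hy => ?_
        rw [hf]
        simp only
        rw [hg3 y hy]
      rw [h3, le_div_iff₀ hr1]
      linarith
    have h2 : ∫ k, (∫ y, f y k ∂μ) ∂ν ≤ ∫ k, (k : ℝ) / ((r : ℝ) - 1) ∂ν :=
      integral_mono hfi.integral_prod_right (hk.div_const _) h1
    rw [integral_div, ← hb] at h2
    exact h2
  -- the lower bound
  have hlow : (1 + d) * (-Real.log d) + d - 1 ≤ ∫ y, (∫ k, f y k ∂ν) ∂μ := by
    rw [← rhs d hd0 hd1.le, intervalIntegral.integral_of_le hd1.le, integral_Ioc_eq_integral_Ioo]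
    have h1 : ∀ y ∈ Ioo d 1, (y - d * (1 - y)) / y ^ 2 ≤ ∫ k, f y k ∂ν := by
      intro y hy
      have hy0 : 0 < y := hd0.trans hy.1
      have h2 : ∫ k, f y k ∂ν = B ν r y / y ^ 2 := by
        rw [hf]
        simp only
        rw [integral_div, hg3 y hy]
        rfl
      rw [h2]
      exact div_le_div_of_nonneg_right (hB y hy0.le hy.2) (by positivity)
    rw [hμ] at hfi ⊢
    refine setIntegral_mono_on ?_ hfi.integral_prod_left measurableSet_Ioo h1
    refine IntegrableOn.mono_set (t := Icc d 1) ?_ Ioo_subset_Icc_self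
    apply ContinuousOn.integrableOn_Icc
    apply ContinuousOn.div
    · fun_prop
    · fun_prop
    · intro x hx
      exact pow_ne_zero 2 (lt_of_lt_of_le hd0 hx.1).ne'
  rw [hswap] at hlow
  have h3 : (0 : ℝ) ≤ d * (-Real.log d) := mul_nonneg hd0.le (by linarith)
  nlinarith

end Pool.Agent.Q219.GWB.TCritA
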