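import Pool.Agent.Q219.GWB.Stmts

set_option autoImplicit false

namespace Pool.Agent.Q219.GWB.TCritB

open Pool.Agent.Q219.GWB MeasureTheory Filter

theorem main (hU : TaskUnion) (hR : TaskBtRange) : Pool.Agent.Q219.GWB.TaskCritB := by
  intro ν hν r p α hr hα hαr hint hp hp2 hm
  have h2p : (0 : ℝ) ≤ 2 * p := by linarith
  have h2p1 : 2 * p ≤ 1 := by linarith
  have hfun : ∀ k : ℕ, ((k : ℝ) * (2 * p)) ^ (1 + α) = (k : ℝ) ^ (1 + α) * (2 * p) ^ (1 + α) :=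
    fun k => Real.mul_rpow (Nat.cast_nonneg k) h2p
  have h1 : B ν r (2 * p) ≤ ∫ k : ℕ, (k : ℝ) ^ (1 + α) * (2 * p) ^ (1 + α) ∂ν := by
    refine integral_mono_of_nonneg (Eventually.of_forall fun k => (hR k r (2 * p) h2p h2p1).1)
      (hint.mul_const _) (Eventually.of_forall fun k => ?_)
    show bt k r (2 * p) ≤ (k : ℝ) ^ (1 + α) * (2 * p) ^ (1 + α)
    rw [← hfun]
    exact hU k r (2 * p) α hr h2p h2p1 hα hαr
  rw [integral_mul_const] at h1
  set m : ℝ := ∫ k : ℕ, (k : ℝ) ^ (1 + α) ∂ν with hmdef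
  have h2 : (2 * p) ^ (1 + α) = 2 ^ (1 + α) * (p * p ^ α) := by
    rw [Real.mul_rpow (by norm_num) hp.le]
    congr 1
    rw [Real.rpow_add hp, Real.rpow_one]
  have h3 : B ν r (2 * p) ≤ p := by
    calc B ν r (2 * p) ≤ m * (2 * p) ^ (1 + α) := h1
      _ = (2 ^ (1 + α) * m * p ^ α) * p := by rw [h2]; ring
      _ ≤ 1 * p := mul_le_mul_of_nonneg_right hm hp.le
      _ = p := one_mul p
  have h4 : (1 - p) * B ν r (2 * p) ≤ (1 - p) * p := mul_le_mul_of_nonneg_left h3 (by linarith)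
  nlinarith

end Pool.Agent.Q219.GWB.TCritB
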