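import Mathlib
import Pool.Agent.Q219.GWB.Stmts

set_option autoImplicit false

namespace Pool.Agent.Q219.GWB.TEngA

open MeasureTheory ProbabilityTheory Set Filter Topology

theorem main (hMany : TaskMany) (hGpos : TaskGpos) (hMeasG : TaskMeasG) (hFort : TaskFort)
    (hFortOf : TaskFortOf) (hRay : TaskRay) (hZip : TaskZip) (hBern : TaskBern) : TaskEngA := by
  intro ν hν h0 h2 r p y hr hp0 hp1 hy0 hy1 hcrit
  have hb : IsProbabilityMeasure (bern p) := hBern p hp0 hp1
  have hρ : IsProbabilityMeasure (ν.prod (bern p)) := inferInstance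
  have hpos : 0 < (ν.prod (bern p)) {x | 2 ≤ x.1} := by
    have h1 : ({x | 2 ≤ x.1} : Set (ℕ × Bool)) = {k | 2 ≤ k} ×ˢ (univ : Set Bool) := by
      ext x
      simp
    rw [h1, Measure.prod_prod, measure_univ, mul_one]
    exact h2
  have hmany := hMany (ν.prod (bern p)) hρ hpos {ω | Gd r ω} (hMeasG r)
    (hGpos ν hν r p y hp0 hp1 hy0 hy1 hcrit)
  rw [← hZip ν (bern p) hν hb] at hmany
  have hmeas : Measurable (fun z : (List ℕ → ℕ) × (List ℕ → Bool) => fun w : List ℕ =>
      (z.1 w, z.2 w)) := by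
    refine measurable_pi_lambda _ fun w => ?_
    exact ((measurable_pi_apply w).comp measurable_fst).prodMk
      ((measurable_pi_apply w).comp measurable_snd)
  have hprod := ae_of_ae_map hmeas.aemeasurable hmany
  have hae := Measure.ae_ae_of_ae_prod hprod
  have hray := hRay ν hν h0
  show ∀ᵐ ξ ∂(GW ν), Ini p {η | Percolates ξ r η} = 0
  filter_upwards [hae, hray] with ξ hξ hrayξ
  have h3 : ∀ᵐ η ∂(Ini p), ¬ Percolates ξ r η := by
    filter_upwards [hξ] with η hη hperc
    obtain ⟨n, hn2, hG⟩ := hη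
    have hin : InTree ξ (List.replicate n 0 ++ [1]) := (hrayξ n).2 hn2
    have hG' : Gd r (fun u => (ξ ((List.replicate n 0 ++ [1]) ++ u),
        η ((List.replicate n 0 ++ [1]) ++ u))) := by
      have h4 : (fun u : List ℕ => (ξ ((List.replicate n 0 ++ [1]) ++ u),
          η ((List.replicate n 0 ++ [1]) ++ u))) =
          fun u : List ℕ => (ξ (List.replicate n 0 ++ (1 :: u)), η (List.replicate n 0 ++ (1 :: u))) := by
        funext u
        rw [List.append_assoc]
        rfl
      rw [h4]
      exact hG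
    obtain ⟨F, hvF, hF⟩ := hFortOf ξ r η _ hr hin hG'
    obtain ⟨t, ht⟩ := hperc _ hin
    exact Set.disjoint_left.mp (hFort ξ r η F hF t) hvF ht
  have h5 := ae_iff.mp h3
  simpa using h5

end Pool.Agent.Q219.GWB.TEngA
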