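import Pool.Agent.Q219.GWB.Stmts

set_option autoImplicit false

namespace Pool.Agent.Q219.GWB.TEngB

open MeasureTheory ProbabilityTheory Set Filter Topology

theorem main (hRecE : TaskRecE) (hConv : TaskConv) (hFin : TaskFinIff) (hNL : TaskNLIff)
    (hMF : TaskMeasFin) (hMN : TaskMeasNL) (hZip : TaskZip) (hLeaf : TaskLeafFort)
    (hBern : TaskBern) : Pool.Agent.Q219.GWB.TaskEngB := by
  intro ν hν h0 r p hr hp0 hp1
  haveI := hν
  haveI hb : IsProbabilityMeasure (bern p) := hBern p hp0 hp1.le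
  haveI : IsProbabilityMeasure (GW ν) := by unfold GW; infer_instance
  haveI : IsProbabilityMeasure (Ini p) := by unfold Ini; infer_instance
  haveI : IsProbabilityMeasure (P ν p) := by unfold P; infer_instance
  let E1 : Set W := {ω | NL ω}
  let E2 : Set W := {ω | NL ω ∧ Fin' ω}
  have hE1m : MeasurableSet E1 := hMN
  have hE2m : MeasurableSet E2 := hMN.inter hMF
  have r1 : ∀ ω : W, ω ∈ E1 ↔ ((ω []).1 = 0 → (ω []).2 = true) ∧
      ∀ i, i < (ω []).1 → sub i ω ∈ E1 := fun ω => hNL ω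
  have r2 : ∀ ω : W, ω ∈ E2 ↔ ((ω []).1 = 0 → (ω []).2 = true) ∧
      ∀ i, i < (ω []).1 → sub i ω ∈ E2 := by
    intro ω
    constructor
    · rintro ⟨h1, h2⟩
      exact ⟨((hNL ω).1 h1).1, fun i hi => ⟨((hNL ω).1 h1).2 i hi, (hFin ω).1 h2 i hi⟩⟩
    · rintro ⟨h1, h2⟩
      exact ⟨(hNL ω).2 ⟨h1, fun i hi => (h2 i hi).1⟩, (hFin ω).2 fun i hi => (h2 i hi).2⟩
  have e1 := hRecE ν hν p hp0 hp1.le E1 hE1m r1
  have e2 := hRecE ν hν p hp0 hp1.le E2 hE2m r2
  have hν0 : 0 < (ν {0}).toReal := ENNReal.toReal_pos h0.ne' (measure_ne_top _ _)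
  have hc : 0 < (1 - p) * (ν {0}).toReal := mul_pos (by linarith) hν0
  have hc' : (1 - p) * (ν {0}).toReal ≤ (ν {0}).toReal := by nlinarith
  have hle : ∀ E : Set W, (P ν p E).toReal ≤ 1 := fun E => by
    have h := ENNReal.toReal_mono ENNReal.one_ne_top (prob_le_one (μ := P ν p) (s := E))
    simpa using h
  have heq := hConv ν hν _ _ _ hc ENNReal.toReal_nonneg (hle E1) ENNReal.toReal_nonneg (hle E2) hc' e1 e2
  have heq' : P ν p E1 = P ν p E2 :=
    (ENNReal.toReal_eq_toReal_iff' (measure_ne_top _ _) (measure_ne_top _ _)).1 heq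
  have hsub : E2 ⊆ E1 := fun ω h => h.1
  have hdiff : P ν p (E1 \ E2) = 0 := by
    rw [measure_sdiff hsub hE2m.nullMeasurableSet (measure_ne_top _ _), heq', tsub_self]
  let zip : (List ℕ → ℕ) × (List ℕ → Bool) → W := fun z w => (z.1 w, z.2 w)
  have hzm : Measurable zip := measurable_pi_lambda _ fun w =>
    ((measurable_pi_apply w).comp measurable_fst).prodMk
      ((measurable_pi_apply w).comp measurable_snd)
  have hz : ((GW ν).prod (Ini p)).map zip = P ν p := hZip ν (bern p) hν hb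
  have hnull : ((GW ν).prod (Ini p)) (zip ⁻¹' (E1 \ E2)) = 0 := by
    rw [← Measure.map_apply hzm (hE1m.diff hE2m), hz, hdiff]
  have hae : ∀ᵐ z ∂((GW ν).prod (Ini p)), ¬ (zip z ∈ E1 \ E2) := by
    rw [ae_iff]
    have h9 : {a | ¬¬zip a ∈ E1 \ E2} = zip ⁻¹' (E1 \ E2) := by
      ext a
      rw [Set.mem_setOf_eq, not_not]
      rfl
    rw [h9]
    exact hnull
  have hae2 := Measure.ae_ae_of_ae_prod hae
  filter_upwards [hae2] with ξ hξ hinf
  have h5 : ∀ᵐ η ∂(Ini p), ¬ Percolates ξ r η := by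
    filter_upwards [hξ] with η hη
    have h6 : ¬ NL (zip (ξ, η)) := by
      intro h7
      exact hη ⟨h7, fun h8 => hinf h8.2⟩
    unfold NL at h6
    push Not at h6
    obtain ⟨w, hw1, hw2, hw3⟩ := h6
    refine hLeaf ξ r η w hr hw1 hw2 ?_
    simpa using hw3
  rw [ae_iff] at h5
  simpa using h5

end Pool.Agent.Q219.GWB.TEngB
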