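import Pool.Agent.Q219.GWB.Stmts

/-!
A tree is finite iff the subtrees of the children of the root are (blueprint of helper219 for
MP_12274d_pr and MP_0cce6e_pr).
-/

set_option autoImplicit false

namespace Pool.Agent.Q219.GWB.TFinIff

open Set

theorem main : Pool.Agent.Q219.GWB.TaskFinIff := by
  intro ω
  have key : {w | InTree (fun u => (ω u).1) w} = {[]} ∪ ⋃ i ∈ {i : ℕ | i < (ω []).1},
      (List.cons i) '' {w | InTree (fun u => (sub i ω u).1) w} := by
    ext w
    cases w with
    | nil => simp [InTree]
    | cons i w =>
      simp only [mem_setOf_eq, InTree, sub, mem_union, mem_singleton_iff, mem_iUnion, mem_image,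
        reduceCtorEq, false_or, List.cons.injEq, exists_prop]
      constructor
      · rintro ⟨h1, h2⟩
        exact ⟨i, h1, w, h2, rfl, rfl⟩
      · rintro ⟨j, h1, v, h2, rfl, rfl⟩
        exact ⟨h1, h2⟩
  unfold Fin'
  rw [key]
  constructor
  · intro h i hi
    have h1 : ((List.cons i) '' {w | InTree (fun u => (sub i ω u).1) w}).Finite := by
      refine h.subset ?_
      refine subset_trans ?_ subset_union_right
      exact subset_biUnion_of_mem (u := fun i : ℕ =>
        (List.cons i) '' {w | InTree (fun u => (sub i ω u).1) w}) (show i ∈ {i : ℕ | i < (ω []).1} from hi)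
    exact h1.of_finite_image (List.cons_injective.injOn)
  · intro h
    refine (finite_singleton _).union ?_
    refine Set.Finite.biUnion (finite_lt_nat _) fun i hi => ?_
    exact (h i hi).image _

end Pool.Agent.Q219.GWB.TFinIff
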