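import Pool.Agent.Q219.GWB.Stmts

set_option autoImplicit false

namespace Pool.Agent.Q219.GWB.TFort

open Pool.Agent.Q219.GWB
open MeasureTheory ProbabilityTheory Set Filter Topology

theorem main : Pool.Agent.Q219.GWB.TaskFort := by
  intro ξ r η F hF t
  induction t with
  | zero =>
    rw [Set.disjoint_left]
    intro v hv hi
    have h1 := (hF v hv).2.1
    have h2 : η v = true := hi.2
    rw [h1] at h2
    exact absurd h2 (by decide)
  | succ t ih =>
    rw [Set.disjoint_left] at ih ⊢
    intro v hv hi
    rcases hi with hi | hi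
    · exact ih hv hi
    · have h1 : (r : ℕ∞) ≤ (nbrs ξ v ∩ infected ξ r η t).encard := hi.2
      have h2 : nbrs ξ v ∩ infected ξ r η t ⊆ nbrs ξ v \ F :=
        fun u hu => ⟨hu.1, fun huF => ih huF hu.2⟩
      exact absurd (h1.trans (Set.encard_le_encard h2)) (not_le.mpr (hF v hv).2.2)

end Pool.Agent.Q219.GWB.TFort
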