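import Pool.Agent.Q219.GWB.Stmts

set_option autoImplicit false

namespace Pool.Agent.Q219.GWB.TFortOf

open Pool.Agent.Q219.GWB Set

theorem inTree_append (v : List ℕ) (i : ℕ) :
    ∀ ξ : List ℕ → ℕ, InTree ξ (v ++ [i]) ↔ InTree ξ v ∧ i < ξ v := by
  induction v with
  | nil => intro ξ; simp [InTree]
  | cons a v ih =>
    intro ξ
    rw [List.cons_append]
    simp only [InTree]
    rw [ih (fun u => ξ (a :: u))]
    tauto

/-- the shifted configuration -/
def om (ξ : List ℕ → ℕ) (η : List ℕ → Bool) (w : List ℕ) : W := fun u => (ξ (w ++ u), η (w ++ u))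

theorem sub_om (ξ : List ℕ → ℕ) (η : List ℕ → Bool) (w : List ℕ) (i : ℕ) :
    sub i (om ξ η w) = om ξ η (w ++ [i]) := by
  funext u
  simp [sub, om]

/-- the fort -/
inductive Reach (ξ : List ℕ → ℕ) (r : ℕ) (η : List ℕ → Bool) (v : List ℕ) : List ℕ → Prop
  | base : Reach ξ r η v v
  | step (x : List ℕ) (i : ℕ) : Reach ξ r η v x → InTree ξ (x ++ [i]) →
      (∀ n, Hl r n (om ξ η (x ++ [i]))) → Reach ξ r η v (x ++ [i])

theorem anti (hdec : TaskHdec) (r : ℕ) (ω : W) (n m : ℕ) (hnm : n ≤ m) (h : Hl r m ω) :
    Hl r n ω := by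
  induction m with
  | zero =>
    have : n = 0 := by omega
    subst this
    exact h
  | succ m ih =>
    rcases Nat.eq_or_lt_of_le hnm with e | e
    · rw [e]; exact h
    · exact ih (by omega) (hdec r m ω h)

theorem fin_union (hdec : TaskHdec) (r : ℕ) (ω : W) (h : ∀ n, Hl r n ω) :
    {i : ℕ | i < (ω []).1 ∧ ¬ ∀ n, Hl r n (sub i ω)}.ncard < r := by
  classical
  let f : ℕ → ℕ := fun i => if hi : ∃ n, ¬ Hl r n (sub i ω) then hi.choose else 0
  set N := (Finset.range (ω []).1).sup f with hN
  have h1 := (h (N + 1)).2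
  refine lt_of_le_of_lt (Set.ncard_le_ncard ?_ ?_) h1
  · rintro i ⟨hi1, hi2⟩
    refine ⟨hi1, fun hh => ?_⟩
    have hex : ∃ n, ¬ Hl r n (sub i ω) := by
      by_contra hcon
      push Not at hcon
      exact hi2 hcon
    have hf : f i = hex.choose := dif_pos hex
    have hle : f i ≤ N := Finset.le_sup (f := f) (Finset.mem_range.2 hi1)
    exact hex.choose_spec (anti hdec r _ _ N (hf ▸ hle) hh)
  · exact (Set.finite_lt_nat (ω []).1).subset fun i hi => hi.1

theorem main (hdec : TaskHdec) : Pool.Agent.Q219.GWB.TaskFortOf := by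
  intro ξ r η v hr hv hG
  refine ⟨{x | Reach ξ r η v x}, Reach.base, ?_⟩
  intro x hx
  have hx' : Reach ξ r η v x := hx
  cases hx' with
  | base =>
    refine ⟨hv, ?_, ?_⟩
    · have := hG.1
      simpa using this
    · have hsub : nbrs ξ v \ {x | Reach ξ r η v x} ⊆ {v.dropLast} := by
        rintro u ⟨⟨hu, i, hui⟩, hnot⟩
        rcases hui with rfl | hui
        · exfalso
          apply hnot
          refine Reach.step v i Reach.base hu ?_
          have h1 := ((inTree_append v i ξ).1 hu).2
          have h2 := hG.2 i (by simpa using h1)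
          have h3 : sub i (fun u => (ξ (v ++ u), η (v ++ u))) = om ξ η (v ++ [i]) :=
            sub_om ξ η v i
          rw [h3] at h2
          exact h2
        · rw [hui]
          simp
      refine lt_of_le_of_lt (Set.encard_le_encard hsub) ?_
      rw [Set.encard_singleton]
      exact_mod_cast hr
  | step y j hy hin hgood =>
    refine ⟨hin, ?_, ?_⟩
    · have : η ((y ++ [j]) ++ []) = false := hgood 0
      simpa using this
    · set x := y ++ [j] with hxdef
      have hsub : nbrs ξ x \ {x | Reach ξ r η v x} ⊆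
          (fun i => x ++ [i]) '' {i : ℕ | i < ((om ξ η x) []).1 ∧
            ¬ ∀ n, Hl r n (sub i (om ξ η x))} := by
        rintro u ⟨⟨hu, i, hui⟩, hnot⟩
        rcases hui with rfl | hui
        · refine ⟨i, ⟨?_, ?_⟩, rfl⟩
          · have h1 := ((inTree_append x i ξ).1 hu).2
            show i < ξ (x ++ [])
            simpa using h1
          · intro hall
            apply hnot
            refine Reach.step x i hx hu ?_
            rw [sub_om] at hall
            exact hall
        · exfalso
          apply hnot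
          have : u = y := by
            have := List.append_inj' (hxdef.symm.trans hui) rfl
            exact this.1.symm
          rw [this]
          exact hy
      have hfin : {i : ℕ | i < ((om ξ η x) []).1 ∧ ¬ ∀ n, Hl r n (sub i (om ξ η x))}.Finite :=
        (Set.finite_lt_nat ((om ξ η x) []).1).subset fun i hi => hi.1
      refine lt_of_le_of_lt (Set.encard_le_encard hsub) (lt_of_le_of_lt (Set.encard_image_le _ _) ?_)
      rw [← hfin.cast_ncard_eq]
      exact_mod_cast fin_union hdec r (om ξ η x) hgood

end Pool.Agent.Q219.GWB.TFortOf
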