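import Pool.Agent.Q219.GWB.Stmts

/-!
# MP_12274d_pr, MP_0cce6e_pr, task `TaskGpos`
-/

set_option autoImplicit false

namespace Pool.Agent.Q219.GWB.TGpos

open MeasureTheory ProbabilityTheory Set Filter Topology

theorem exists_atom (ν : Measure ℕ) [IsProbabilityMeasure ν] : ∃ k, ν {k} ≠ 0 := by
  by_contra hcon
  push Not at hcon
  have h1 : ν (⋃ k : ℕ, {k}) = 0 := measure_iUnion_null hcon
  have h2 : (⋃ k : ℕ, ({k} : Set ℕ)) = univ := by
    ext x
    simp
  rw [h2, measure_univ] at h1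
  exact one_ne_zero h1

theorem bern_false (p : ℝ) (hp : p < 1) : bern p {false} ≠ 0 := by
  unfold bern
  rw [Measure.add_apply, Measure.smul_apply, Measure.smul_apply,
    Measure.dirac_apply' _ (measurableSet_singleton false),
    Measure.dirac_apply' _ (measurableSet_singleton false)]
  simp only [smul_eq_mul]
  have h : (0 : ENNReal) < ENNReal.ofReal (1 - p) := ENNReal.ofReal_pos.2 (by linarith)
  simp [hp]

theorem main (hHinf : TaskHinf) (hBranch : TaskBranch) (hAll : TaskAll) (hMeas : TaskMeas)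
    (hBern : TaskBern) (hB : TaskBMono) : Pool.Agent.Q219.GWB.TaskGpos := by
  intro ν hν r p y hp0 hp1 hy0 hy1 hcrit
  haveI := hν
  haveI := hBern p hp0 hp1
  have hB0 : 0 ≤ B ν r y := (hB ν hν r y y hy0 le_rfl hy1.le).2.1
  have hp : p < 1 := by
    have : p ≤ y := by nlinarith
    linarith
  obtain ⟨E, hE⟩ : ∃ E : Set W, E = {ω | ∀ n, Hl r n ω} := ⟨_, rfl⟩
  have hEm : MeasurableSet E := by
    have h1 : E = ⋂ n, {ω | Hl r n ω} := by
      rw [hE]
      ext ω
      simp
    rw [h1]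
    exact MeasurableSet.iInter fun n => hMeas r n
  have hEpos : P ν p E ≠ 0 := by
    intro h0
    have h1 := hHinf ν hν r p y hp0 hp1 hy0 hy1 hcrit
    rw [← hE, h0] at h1
    simp only [ENNReal.toReal_zero] at h1
    linarith
  haveI : IsProbabilityMeasure (P ν p) := by unfold P; infer_instance
  obtain ⟨k, hk⟩ := exists_atom ν
  obtain ⟨F, hF⟩ : ∃ F : Set (ℕ → W), F = {f | ∀ i, i < k → f i ∈ E} := ⟨_, rfl⟩
  have hFm : MeasurableSet F := by
    have h1 : F = ⋂ i : ℕ, ⋂ _ : i < k, (fun f : ℕ → W => f i) ⁻¹' E := by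
      rw [hF]
      ext f
      simp
    rw [h1]
    exact MeasurableSet.iInter fun i => MeasurableSet.iInter fun _ => measurable_pi_apply i hEm
  have hQ : (Measure.infinitePi (fun _ : ℕ => P ν p)) F = (P ν p E) ^ k := by
    rw [hF]
    exact hAll W _ (P ν p) inferInstance E hEm k
  obtain ⟨T, hT⟩ : ∃ T : W → (ℕ × Bool) × (ℕ → W),
    T = fun ω => (ω [], fun i : ℕ => fun u : List ℕ => ω (i :: u)) := ⟨_, rfl⟩
  have hTm : Measurable T := by
    rw [hT]
    exact (measurable_pi_apply _).prodMk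
      (measurable_pi_lambda _ fun i => measurable_pi_lambda _ fun u => measurable_pi_apply _)
  have hbr : (P ν p).map T =
      (ν.prod (bern p)).prod (Measure.infinitePi (fun _ : ℕ => P ν p)) := by
    rw [hT]
    exact hBranch (ℕ × Bool) _ (ν.prod (bern p)) inferInstance
  have hS : MeasurableSet ((({k} : Set ℕ) ×ˢ ({false} : Set Bool)) ×ˢ F) :=
    ((measurableSet_singleton k).prod (measurableSet_singleton false)).prod hFm
  have hsub : T ⁻¹' ((({k} : Set ℕ) ×ˢ ({false} : Set Bool)) ×ˢ F) ⊆ {ω | Gd r ω} := by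
    intro ω hω
    rw [hT, hF, hE] at hω
    obtain ⟨⟨h1, h2⟩, h3⟩ := hω
    simp only [mem_singleton_iff] at h1 h2
    refine ⟨h2, fun i hi n => ?_⟩
    rw [h1] at hi
    exact h3 i hi n
  have hval : P ν p (T ⁻¹' ((({k} : Set ℕ) ×ˢ ({false} : Set Bool)) ×ˢ F)) =
      ν {k} * bern p {false} * (P ν p E) ^ k := by
    rw [← Measure.map_apply hTm hS, hbr, Measure.prod_prod, Measure.prod_prod, hQ]
  refine lt_of_lt_of_le ?_ (measure_mono hsub)
  rw [hval]
  exact pos_iff_ne_zero.2 (mul_ne_zero (mul_ne_zero hk (bern_false p hp)) (pow_ne_zero _ hEpos))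

end Pool.Agent.Q219.GWB.TGpos
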