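import Pool.Agent.Q219.GWB.Stmts

set_option autoImplicit false

namespace Pool.Agent.Q219.GWB.THdec

open Pool.Agent.Q219.GWB

theorem main : Pool.Agent.Q219.GWB.TaskHdec := by
  intro r n
  induction n with
  | zero => intro ω h; exact h.1
  | succ n ih =>
    intro ω h
    refine ⟨h.1, lt_of_le_of_lt (Set.ncard_le_ncard ?_ ?_) h.2⟩
    · rintro i ⟨hi, hn⟩
      exact ⟨hi, fun h' => hn (ih _ h')⟩
    · exact (Set.finite_Iio (ω []).1).subset (fun i hi => hi.1)

end Pool.Agent.Q219.GWB.THdec
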