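import Pool.Agent.Q219.GWB.Stmts

set_option autoImplicit false

namespace Pool.Agent.Q219.GWB.THinf

open MeasureTheory ProbabilityTheory Set Filter Topology Pool.Agent.Q219.GWB

theorem main (hHn : TaskHn) (hHdec : TaskHdec) (hMeas : TaskMeas) (hBern : TaskBern) :
    Pool.Agent.Q219.GWB.TaskHinf := by
  intro ν hν r p y hp0 hp1 hy0 hy1 h
  haveI := hν
  haveI : IsProbabilityMeasure (bern p) := hBern p hp0 hp1
  haveI : IsProbabilityMeasure (P ν p) := by unfold P; infer_instance
  have hset : {ω : W | ∀ n, Hl r n ω} = ⋂ n, {ω : W | Hl r n ω} := by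
    ext ω; simp
  rw [hset]
  have hanti : Antitone fun n => {ω : W | Hl r n ω} :=
    antitone_nat_of_succ_le (fun n ω hω => hHdec r n ω hω)
  have ht := tendsto_measure_iInter_atTop (μ := P ν p)
    (fun n => (hMeas r n).nullMeasurableSet) hanti ⟨0, measure_ne_top _ _⟩
  have ht2 := (ENNReal.tendsto_toReal (measure_ne_top (P ν p) (⋂ n, {ω : W | Hl r n ω}))).comp ht
  exact ge_of_tendsto' ht2 (fun n => hHn ν hν r p y hp0 hp1 hy0 hy1 h n)

end Pool.Agent.Q219.GWB.THinf
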