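import Pool.Agent.Q219.GWB.Stmts

set_option autoImplicit false

namespace Pool.Agent.Q219.GWB.THn

open Pool.Agent.Q219.GWB MeasureTheory ProbabilityTheory Set Filter Topology

theorem main (hRec : TaskRec) (hB : TaskBMono) (hBern : TaskBern) :
    Pool.Agent.Q219.GWB.TaskHn := by
  intro ν hν r p y hp0 hp1 hy0 hy1 h n
  have := hν
  have := hBern p hp0 hp1
  have : IsProbabilityMeasure (P ν p) := by
    unfold P
    infer_instance
  induction n with
  | zero =>
    have h1 : {ω : W | Hl r 0 ω} = (fun ω : W => ω []) ⁻¹' (univ ×ˢ {false}) := by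
      ext ω
      simp [Hl]
    have h2 : P ν p {ω : W | Hl r 0 ω} = ENNReal.ofReal (1 - p) := by
      rw [h1]
      unfold P
      have hm := measurePreserving_eval_infinitePi (fun _ : List ℕ => ν.prod (bern p)) []
      have h3 := hm.measure_preimage
        (s := (univ : Set ℕ) ×ˢ ({false} : Set Bool))
        (MeasurableSet.univ.prod (measurableSet_singleton _)).nullMeasurableSet
      have h4 : (fun ω : W => ω []) = Function.eval [] := rfl
      rw [h4, h3, Measure.prod_prod]
      simp [bern]
    rw [h2, ENNReal.toReal_ofReal (by linarith)]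
    have hb := (hB ν hν r y y hy0 le_rfl hy1.le).2.1
    have : 0 ≤ (1 - p) * B ν r y := mul_nonneg (by linarith) hb
    linarith
  | succ n ih =>
    rw [hRec ν hν r n p hp0 hp1]
    have hle : (P ν p {ω | Hl r n ω}).toReal ≤ 1 := by
      have h1 : P ν p {ω | Hl r n ω} ≤ 1 := prob_le_one
      have := ENNReal.toReal_mono ENNReal.one_ne_top h1
      simpa using this
    have hmono := (hB ν hν r (1 - (P ν p {ω | Hl r n ω}).toReal) y (by linarith) (by linarith)
      hy1.le).1
    have h2 : (1 - p) * B ν r (1 - (P ν p {ω | Hl r n ω}).toReal) ≤ (1 - p) * B ν r y :=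
      mul_le_mul_of_nonneg_left hmono (by linarith)
    linarith

end Pool.Agent.Q219.GWB.THn
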