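import Pool.Agent.Q219.GWB.Stmts

set_option autoImplicit false

namespace Pool.Agent.Q219.GWB.TInt

open Pool.Agent.Q219.GWB
open Finset MeasureTheory intervalIntegral

/-- Beta integrals -/
theorem beta (b a : ℕ) : ∫ y in (0 : ℝ)..1, y ^ a * (1 - y) ^ b =
    (a.factorial : ℝ) * b.factorial / ((a + b + 1).factorial : ℝ) := by
  induction b generalizing a with
  | zero =>
    simp only [pow_zero, mul_one, integral_pow, one_pow, Nat.factorial_zero, Nat.cast_one, add_zero]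
    rw [zero_pow (by omega), Nat.factorial_succ]
    have : (a.factorial : ℝ) ≠ 0 := by exact_mod_cast a.factorial_ne_zero
    push_cast
    field_simp
    ring
  | succ b ih =>
    have hd : ∀ y ∈ Set.uIcc (0 : ℝ) 1, HasDerivAt (fun y : ℝ => y ^ (a + 1) * (1 - y) ^ (b + 1))
        (((a : ℝ) + 1) * (y ^ a * (1 - y) ^ (b + 1)) - ((b : ℝ) + 1) * (y ^ (a + 1) * (1 - y) ^ b)) y := by
      intro y _
      have h1 : HasDerivAt (fun y : ℝ => y ^ (a + 1)) (((a + 1 : ℕ) : ℝ) * y ^ a) y := by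
        simpa using hasDerivAt_pow (a + 1) y
      have h2 : HasDerivAt (fun y : ℝ => (1 - y) ^ (b + 1)) (((b + 1 : ℕ) : ℝ) * (1 - y) ^ b * (-1)) y := by
        have h3 : HasDerivAt (fun y : ℝ => 1 - y) (-1) y := by
          simpa using (hasDerivAt_id y).const_sub 1
        have h4 : HasDerivAt (fun y : ℝ => y ^ (b + 1)) (((b + 1 : ℕ) : ℝ) * (1 - y) ^ b) (1 - y) := by
          simpa using hasDerivAt_pow (b + 1) (1 - y)
        exact h4.comp y h3
      refine (h1.mul h2).congr_deriv ?_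
      push_cast
      ring
    have hI := integral_eq_sub_of_hasDerivAt hd (by
      apply Continuous.intervalIntegrable
      fun_prop)
    rw [intervalIntegral.integral_sub (by apply Continuous.intervalIntegrable; fun_prop)
      (by apply Continuous.intervalIntegrable; fun_prop), intervalIntegral.integral_const_mul,
      intervalIntegral.integral_const_mul, ih (a + 1)] at hI
    have h0 : (1 : ℝ) ^ (a + 1) * (1 - 1) ^ (b + 1) - 0 ^ (a + 1) * (1 - 0) ^ (b + 1) = 0 := by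
      simp
    rw [h0] at hI
    have ha : ((a : ℝ) + 1) ≠ 0 := by positivity
    have h5 : ∫ y in (0 : ℝ)..1, y ^ a * (1 - y) ^ (b + 1) =
        ((b : ℝ) + 1) * (((a + 1).factorial : ℝ) * b.factorial / ((a + 1 + b + 1).factorial : ℝ)) /
          ((a : ℝ) + 1) := by
      rw [eq_div_iff ha]
      linarith
    rw [h5, show a + 1 + b + 1 = a + (b + 1) + 1 by ring, Nat.factorial_succ a, Nat.factorial_succ b]
    push_cast
    field_simp


theorem tel (r n : ℕ) (_ : 2 ≤ r) : ∑ j ∈ Finset.Ico r (r + n), (1 / ((j : ℝ) - 1) - 1 / (j : ℝ)) =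
    1 / ((r : ℝ) - 1) - 1 / ((r : ℝ) + n - 1) := by
  induction n with
  | zero => simp
  | succ n ih =>
    rw [← add_assoc, Finset.sum_Ico_succ_top (by omega), ih]
    push_cast
    ring_nf

theorem term (i l : ℕ) : ((i + 2 + l).choose (i + 2) : ℝ) * ((i.factorial : ℝ) * l.factorial /
    ((i + l + 1).factorial : ℝ)) =
    ((i + 2 + l : ℕ) : ℝ) * (1 / (((i + 2 : ℕ) : ℝ) - 1) - 1 / ((i + 2 : ℕ) : ℝ)) := by
  have h1 : ((i + 2 + l).choose (i + 2) : ℝ) = ((i + 2 + l).factorial : ℝ) /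
      (((i + 2).factorial : ℝ) * (l.factorial : ℝ)) := by
    rw [Nat.cast_choose ℝ (by omega : i + 2 ≤ i + 2 + l)]
    congr 3
    rw [Nat.add_sub_cancel_left]
  rw [h1]
  have e1 : (i + 2 + l).factorial = (i + 2 + l) * (i + l + 1).factorial := by
    rw [show i + 2 + l = (i + l + 1) + 1 by ring, Nat.factorial_succ]
  have e2 : (i + 2).factorial = (i + 2) * ((i + 1) * i.factorial) := by
    rw [Nat.factorial_succ, Nat.factorial_succ]
  rw [e1, e2]
  have f1 : ((i + l + 1).factorial : ℝ) ≠ 0 := by exact_mod_cast Nat.factorial_ne_zero _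
  have f2 : (i.factorial : ℝ) ≠ 0 := by exact_mod_cast Nat.factorial_ne_zero _
  have f3 : (l.factorial : ℝ) ≠ 0 := by exact_mod_cast Nat.factorial_ne_zero _
  push_cast
  have f4 : (i : ℝ) + 2 ≠ 0 := by positivity
  have f5 : (i : ℝ) + 1 ≠ 0 := by positivity
  have f6 : (i : ℝ) + 2 - 1 ≠ 0 := by
    have : (i : ℝ) + 2 - 1 = i + 1 := by ring
    rw [this]; exact f5
  field_simp
  ring

theorem main : TaskInt := by
  intro k r δ hr hδ hδ1
  have h1 : ∫ y in δ..1, bt k r y / y ^ 2 = ∑ j ∈ Finset.Icc r k, ∫ y in δ..1,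
      (k.choose j : ℝ) * (y ^ (j - 2) * (1 - y) ^ (k - j)) := by
    rw [← intervalIntegral.integral_finsetSum (fun j _ => by
      apply Continuous.intervalIntegrable; fun_prop)]
    refine intervalIntegral.integral_congr fun y hy => ?_
    rw [Set.uIcc_of_le hδ1] at hy
    have hy0 : y ≠ 0 := (lt_of_lt_of_le hδ hy.1).ne'
    show bt k r y / y ^ 2 = _
    unfold bt
    rw [Finset.sum_div]
    refine Finset.sum_congr rfl fun j hj => ?_
    have hj2 : 2 ≤ j := hr.trans (Finset.mem_Icc.1 hj).1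
    obtain ⟨i, rfl⟩ : ∃ i, j = i + 2 := ⟨j - 2, by omega⟩
    rw [Nat.add_sub_cancel, pow_add]
    field_simp
  have h2 : ∀ j ∈ Finset.Icc r k, ∫ y in δ..1, (k.choose j : ℝ) * (y ^ (j - 2) * (1 - y) ^ (k - j)) ≤
      (k : ℝ) * (1 / ((j : ℝ) - 1) - 1 / (j : ℝ)) := by
    intro j hj
    obtain ⟨hj1, hj2⟩ := Finset.mem_Icc.1 hj
    obtain ⟨i, rfl⟩ : ∃ i, j = i + 2 := ⟨j - 2, by omega⟩
    obtain ⟨l, rfl⟩ : ∃ l, k = i + 2 + l := ⟨k - (i + 2), by omega⟩
    rw [← term i l, intervalIntegral.integral_const_mul, Nat.add_sub_cancel, Nat.add_sub_cancel_left,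
      ← beta l i]
    refine mul_le_mul_of_nonneg_left ?_ (Nat.cast_nonneg _)
    refine intervalIntegral.integral_mono_interval hδ.le hδ1 le_rfl ?_
      (by apply Continuous.intervalIntegrable; fun_prop)
    rw [Filter.EventuallyLE, ae_restrict_iff' measurableSet_Ioc]
    refine Filter.Eventually.of_forall fun y hy => ?_
    have : 0 ≤ 1 - y := by linarith [hy.2]
    have h0 := hy.1.le
    show (0 : ℝ) ≤ y ^ i * (1 - y) ^ l
    positivity
  have hr' : (0 : ℝ) < (r : ℝ) - 1 := by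
    have : (2 : ℝ) ≤ r := by exact_mod_cast hr
    linarith
  have h3 : ∑ j ∈ Finset.Icc r k, (1 / ((j : ℝ) - 1) - 1 / (j : ℝ)) ≤ 1 / ((r : ℝ) - 1) := by
    by_cases hrk : r ≤ k
    · have e : Finset.Icc r k = Finset.Ico r (r + (k + 1 - r)) := by
        ext j; simp only [Finset.mem_Icc, Finset.mem_Ico]; omega
      rw [e, tel r _ hr]
      have : (0 : ℝ) ≤ 1 / ((r : ℝ) + ((k + 1 - r : ℕ) : ℝ) - 1) := by
        apply div_nonneg zero_le_one
        have : (0 : ℝ) ≤ ((k + 1 - r : ℕ) : ℝ) := Nat.cast_nonneg _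
        linarith
      linarith
    · rw [Finset.Icc_eq_empty (by omega), Finset.sum_empty]
      positivity
  rw [h1]
  calc ((r : ℝ) - 1) * ∑ j ∈ Finset.Icc r k, ∫ y in δ..1,
        (k.choose j : ℝ) * (y ^ (j - 2) * (1 - y) ^ (k - j))
      ≤ ((r : ℝ) - 1) * ∑ j ∈ Finset.Icc r k, (k : ℝ) * (1 / ((j : ℝ) - 1) - 1 / (j : ℝ)) :=
        mul_le_mul_of_nonneg_left (Finset.sum_le_sum h2) hr'.le
    _ = ((r : ℝ) - 1) * ((k : ℝ) * ∑ j ∈ Finset.Icc r k, (1 / ((j : ℝ) - 1) - 1 / (j : ℝ))) := by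
        rw [← Finset.mul_sum]
    _ ≤ ((r : ℝ) - 1) * ((k : ℝ) * (1 / ((r : ℝ) - 1))) := by
        gcongr
    _ = k := by field_simp

end Pool.Agent.Q219.GWB.TInt
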