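import Pool.Agent.Q219.GWB.Stmts

set_option autoImplicit false

/-! Blueprint for MP_12274d_pr and MP_0cce6e_pr: a healthy leaf blocks. -/

namespace Pool.Agent.Q219.GWB.TLeafFort

open Pool.Agent.Q219.GWB

theorem lt_of_inTree (v : List ℕ) (i : ℕ) : ∀ ξ : List ℕ → ℕ, InTree ξ (v ++ [i]) → i < ξ v := by
  induction v with
  | nil => intro ξ h; exact h.1
  | cons j w ih => intro ξ h; exact ih _ h.2

theorem main (hF : TaskFort) : Pool.Agent.Q219.GWB.TaskLeafFort := by
  intro ξ r η v hr hv h0 hη hP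
  have hfort : IsFort ξ r η {v} := by
    intro u hu
    rw [Set.mem_singleton_iff] at hu
    subst hu
    refine ⟨hv, hη, ?_⟩
    have hsub : nbrs ξ u \ {u} ⊆ {u.dropLast} := by
      rintro x ⟨⟨hx, i, hi⟩, -⟩
      rcases hi with hi | hi
      · rw [hi] at hx
        have := lt_of_inTree u i ξ hx
        omega
      · rw [Set.mem_singleton_iff, hi]
        simp
    calc (nbrs ξ u \ {u}).encard ≤ ({u.dropLast} : Set (List ℕ)).encard :=
          Set.encard_le_encard hsub
      _ = 1 := Set.encard_singleton _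
      _ < (r : ℕ∞) := by exact_mod_cast (by omega : 1 < r)
  obtain ⟨t, ht⟩ := hP v hv
  exact Set.disjoint_left.1 (hF ξ r η {v} hfort t) rfl ht

end Pool.Agent.Q219.GWB.TLeafFort
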