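import Pool.Agent.Q219.GWB.Stmts

set_option autoImplicit false

namespace Pool.Agent.Q219.GWB.TMany

open Pool.Agent.Q219.GWB
open MeasureTheory ProbabilityTheory Set Filter Topology

/-- the event that nothing happens along the ray -/
def Bad (G : Set W) : Set W :=
  {ω | ∀ n : ℕ, ¬ (2 ≤ (ω (List.replicate n 0)).1 ∧
    (fun u => ω (List.replicate n 0 ++ (1 :: u))) ∈ G)}

theorem bad_iff (G : Set W) (ω : W) : ω ∈ Bad G ↔
    ¬ (2 ≤ (ω []).1 ∧ (fun u => ω (1 :: u)) ∈ G) ∧ (fun u => ω (0 :: u)) ∈ Bad G := by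
  constructor
  · intro h
    exact ⟨h 0, fun n => h (n + 1)⟩
  · rintro ⟨h0, h1⟩ n
    cases n with
    | zero => exact h0
    | succ n => exact h1 n

theorem bad_meas {G : Set W} (hG : MeasurableSet G) : MeasurableSet (Bad G) := by
  have : Bad G = ⋂ n : ℕ, ({ω : W | 2 ≤ (ω (List.replicate n 0)).1} ∩
      (fun ω : W => (fun u => ω (List.replicate n 0 ++ (1 :: u)) : W)) ⁻¹' G)ᶜ := by
    ext ω
    simp only [Bad, mem_setOf_eq, mem_iInter, mem_compl_iff, mem_inter_iff, mem_preimage]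
  rw [this]
  refine MeasurableSet.iInter fun n => MeasurableSet.compl (MeasurableSet.inter ?_ ?_)
  · have h : Measurable fun ω : W => (ω (List.replicate n 0)).1 :=
      measurable_fst.comp (measurable_pi_apply _)
    exact h (MeasurableSet.of_discrete (s := {k : ℕ | 2 ≤ k}))
  · have h : Measurable fun ω : W => (fun u => ω (List.replicate n 0 ++ (1 :: u)) : W) :=
      measurable_pi_lambda _ fun u => measurable_pi_apply _
    exact h hG

theorem main (hBr : TaskBranch) : Pool.Agent.Q219.GWB.TaskMany := by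
  intro ρ hρ h2 G hG hpos
  have hbr := hBr (ℕ × Bool) inferInstance ρ hρ
  set μ : Measure W := Measure.infinitePi (fun _ : List ℕ => ρ) with hμ
  have hBm : MeasurableSet (Bad G) := bad_meas hG
  have hprob : IsProbabilityMeasure μ := by rw [hμ]; infer_instance
  set K : Measure (ℕ → W) := Measure.infinitePi (fun _ : ℕ => μ) with hK
  have hKp : IsProbabilityMeasure K := by rw [hK]; infer_instance
  -- the two sets in the product
  let S1 : Set ((ℕ × Bool) × (ℕ → W)) := univ ×ˢ {f | f 0 ∈ Bad G}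
  let S2 : Set ((ℕ × Bool) × (ℕ → W)) := {x | 2 ≤ x.1} ×ˢ {f | f 0 ∈ Bad G ∧ f 1 ∈ G}
  have hm0 : MeasurableSet {f : ℕ → W | f 0 ∈ Bad G} := (measurable_pi_apply 0) hBm
  have hm1 : MeasurableSet {f : ℕ → W | f 1 ∈ G} := (measurable_pi_apply 1) hG
  have hm2 : MeasurableSet {x : ℕ × Bool | 2 ≤ x.1} :=
    measurable_fst (MeasurableSet.of_discrete (s := {k : ℕ | 2 ≤ k}))
  have hS1m : MeasurableSet S1 := MeasurableSet.univ.prod hm0
  have hS2m : MeasurableSet S2 := hm2.prod (hm0.inter hm1)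
  have hS21 : S2 ⊆ S1 := by
    rintro ⟨x, f⟩ ⟨-, hf, -⟩
    exact ⟨mem_univ _, hf⟩
  have hP0 : K {f | f 0 ∈ Bad G} = μ (Bad G) := by
    have h := Measure.infinitePi_pi (fun _ : ℕ => μ) (s := {0}) (t := fun _ => Bad G)
      (fun _ _ => hBm)
    rw [Finset.prod_singleton] at h
    rw [← h]
    congr 1
    ext f
    simp
  have hP01 : K {f | f 0 ∈ Bad G ∧ f 1 ∈ G} = μ (Bad G) * μ G := by
    have h := Measure.infinitePi_pi (fun _ : ℕ => μ) (s := {0, 1})
      (t := fun i => if i = 0 then Bad G else G)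
      (fun i _ => by split_ifs; exacts [hBm, hG])
    rw [Finset.prod_pair (by norm_num)] at h
    simp only [if_true, one_ne_zero, if_false] at h
    rw [← h]
    congr 1
    ext f
    simp
  have hmap : Measurable (fun ω : W => (ω [], fun i : ℕ => fun u : List ℕ => ω (i :: u))) :=
    (measurable_pi_apply _).prodMk
      (measurable_pi_lambda _ fun i => measurable_pi_lambda _ fun u => measurable_pi_apply _)
  have hpre : (fun ω : W => (ω [], fun i : ℕ => fun u : List ℕ => ω (i :: u))) ⁻¹' (S1 \ S2) =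
      Bad G := by
    ext ω
    rw [bad_iff]
    simp only [mem_preimage, mem_diff, S1, S2, mem_prod, mem_univ, true_and, mem_setOf_eq]
    tauto
  have h1 : μ (Bad G) = (ρ.prod K) (S1 \ S2) := by
    rw [← hbr, Measure.map_apply hmap (hS1m.diff hS2m), hpre]
  have h3 : (ρ.prod K) S1 = μ (Bad G) := by
    rw [Measure.prod_prod, measure_univ, one_mul, hP0]
  have h4 : (ρ.prod K) S2 = ρ {x | 2 ≤ x.1} * (μ (Bad G) * μ G) := by
    rw [Measure.prod_prod, hP01]
  have h5 : (ρ.prod K) (S1 \ S2) + (ρ.prod K) S2 = (ρ.prod K) S1 :=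
    by
    have := measure_diff_add_inter (μ := ρ.prod K) S1 hS2m
    rwa [inter_eq_right.2 hS21] at this
  have h6 : (ρ.prod K) S2 = 0 := by
    rw [← h1, h3] at h5
    have hfin : μ (Bad G) ≠ ⊤ := measure_ne_top _ _
    have : μ (Bad G) + (ρ.prod K) S2 = μ (Bad G) + 0 := by rw [h5, add_zero]
    exact (ENNReal.add_right_inj hfin).1 this
  rw [h4] at h6
  have h7 : μ (Bad G) = 0 := by
    rcases mul_eq_zero.1 h6 with h | h
    · exact absurd h h2.ne'
    · rcases mul_eq_zero.1 h with h | h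
      · exact h
      · exact absurd h hpos.ne'
  have h8 : ∀ᵐ ω ∂μ, ω ∉ Bad G := measure_eq_zero_iff_ae_notMem.1 h7
  filter_upwards [h8] with ω hω
  by_contra hcon
  push Not at hcon
  exact hω fun n hn => hcon n hn.1 hn.2

end Pool.Agent.Q219.GWB.TMany
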