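import Mathlib
import Pool.Agent.Q219.GWB.Stmts

set_option autoImplicit false

namespace Pool.Agent.Q219.GWB.TMeas

open MeasureTheory ProbabilityTheory Set Filter Topology

theorem main : Pool.Agent.Q219.GWB.TaskMeas := by
  classical
  intro r n
  induction n with
  | zero =>
    have h1 : Measurable (fun ω : W => (ω []).2) := (measurable_pi_apply ([] : List ℕ)).snd
    exact h1 (measurableSet_singleton false)
  | succ n ih =>
    have h1 : Measurable (fun ω : W => (ω []).2) := (measurable_pi_apply ([] : List ℕ)).snd
    have h2 : Measurable (fun ω : W => (ω []).1) := (measurable_pi_apply ([] : List ℕ)).fst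
    have h3 : ∀ i : ℕ, Measurable (sub i) := fun i =>
      measurable_pi_lambda _ fun u => measurable_pi_apply (i :: u)
    have h4 : ∀ i : ℕ, MeasurableSet {ω : W | Hl r n (sub i ω)} := fun i => h3 i ih
    have hcard : ∀ (k : ℕ) (ω : W), {i : ℕ | i < k ∧ ¬ Hl r n (sub i ω)}.ncard =
        ∑ i ∈ Finset.range k, if Hl r n (sub i ω) then 0 else 1 := by
      intro k ω
      have e : {i : ℕ | i < k ∧ ¬ Hl r n (sub i ω)} =
          ((Finset.range k).filter fun i => ¬ Hl r n (sub i ω) : Finset ℕ) := by
        ext i
        simp
      rw [e, Set.ncard_coe_finset, Finset.card_filter]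
      refine Finset.sum_congr rfl fun i _ => ?_
      by_cases h : Hl r n (sub i ω) <;> simp [h]
    have h5 : ∀ k : ℕ, Measurable (fun ω : W =>
        ∑ i ∈ Finset.range k, if Hl r n (sub i ω) then 0 else 1) := by
      intro k
      refine Finset.measurable_sum _ fun i _ => ?_
      exact Measurable.ite (h4 i) measurable_const measurable_const
    have hset : {ω : W | Hl r (n + 1) ω} = {ω : W | (ω []).2 = false} ∩
        ⋃ k : ℕ, ({ω : W | (ω []).1 = k} ∩
          {ω : W | (∑ i ∈ Finset.range k, if Hl r n (sub i ω) then 0 else 1) < r}) := by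
      ext ω
      simp only [Set.mem_ofPred_eq, mem_inter_iff, mem_iUnion]
      constructor
      · rintro ⟨ha, hb⟩
        refine ⟨ha, (ω []).1, rfl, ?_⟩
        rw [← hcard]
        exact hb
      · rintro ⟨ha, k, hk, hb⟩
        refine ⟨ha, ?_⟩
        rw [hk, hcard]
        exact hb
    rw [hset]
    refine (h1 (measurableSet_singleton false)).inter (MeasurableSet.iUnion fun k => ?_)
    exact (h2 (measurableSet_singleton k)).inter (measurableSet_lt (h5 k) measurable_const)

end Pool.Agent.Q219.GWB.TMeas
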