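import Pool.Agent.Q219.GWB.Stmts

set_option autoImplicit false

namespace Pool.Agent.Q219.GWB.TMeasFin

open Pool.Agent.Q219.GWB MeasureTheory Set

theorem meas_inTree (w : List ℕ) : MeasurableSet {ω : W | InTree (fun u => (ω u).1) w} := by
  induction w with
  | nil =>
    have : {ω : W | InTree (fun u => (ω u).1) []} = univ := by
      ext ω; simp [InTree]
    rw [this]; exact MeasurableSet.univ
  | cons i w ih =>
    have h : {ω : W | InTree (fun u => (ω u).1) (i :: w)} =
        ((fun ω : W => (ω []).1) ⁻¹' {k | i < k}) ∩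
          ((fun ω : W => fun u => ω (i :: u)) ⁻¹' {ω : W | InTree (fun u => (ω u).1) w}) := by
      ext ω
      simp [InTree]
    rw [h]
    refine MeasurableSet.inter ?_ ?_
    · exact (measurable_fst.comp (measurable_pi_apply [])) (MeasurableSet.of_discrete)
    · exact (measurable_pi_lambda _ fun u => measurable_pi_apply _) ih

theorem main : Pool.Agent.Q219.GWB.TaskMeasFin := by
  unfold TaskMeasFin
  have h : {ω : W | Fin' ω} = ⋃ s : Finset (List ℕ), ⋂ w : List ℕ,
      {ω : W | InTree (fun u => (ω u).1) w → w ∈ s} := by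
    ext ω
    simp only [mem_setOf_eq, mem_iUnion, mem_iInter, Fin']
    constructor
    · intro hf
      exact ⟨hf.toFinset, fun w hw => hf.mem_toFinset.2 hw⟩
    · rintro ⟨s, hs⟩
      exact s.finite_toSet.subset fun w hw => hs w hw
  rw [h]
  refine MeasurableSet.iUnion fun s => MeasurableSet.iInter fun w => ?_
  by_cases hw : w ∈ s
  · have : {ω : W | InTree (fun u => (ω u).1) w → w ∈ s} = univ := by
      ext ω; simp [hw]
    rw [this]; exact MeasurableSet.univ
  · have : {ω : W | InTree (fun u => (ω u).1) w → w ∈ s} =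
        {ω : W | InTree (fun u => (ω u).1) w}ᶜ := by
      ext ω; simp [hw]
    rw [this]; exact (meas_inTree w).compl

end Pool.Agent.Q219.GWB.TMeasFin
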