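import Pool.Agent.Q219.GWB.Stmts

/-!
# GWB.TaskMeasG: the good event is measurable
-/

open MeasureTheory Set

namespace Pool.Agent.Q219.GWB.TMeasG

open Pool.Agent.Q219.GWB

theorem meas_sub (i : ℕ) : Measurable (sub i) :=
  measurable_pi_lambda _ (fun u => measurable_pi_apply (i :: u))

theorem meas_root : Measurable (fun ω : W => ω []) := measurable_pi_apply []

theorem main (h : TaskMeas) : Pool.Agent.Q219.GWB.TaskMeasG := by
  intro r
  have h1 : MeasurableSet {ω : W | (ω []).2 = false} :=
    (measurable_snd.comp meas_root) (measurableSet_singleton false)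
  have h2 : ∀ i : ℕ, MeasurableSet {ω : W | i < (ω []).1 → ∀ n, Hl r n (sub i ω)} := by
    intro i
    have hA : MeasurableSet {ω : W | i < (ω []).1} :=
      (measurable_fst.comp meas_root) (measurableSet_Ioi (a := i))
    have hB : MeasurableSet {ω : W | ∀ n, Hl r n (sub i ω)} := by
      have : {ω : W | ∀ n, Hl r n (sub i ω)} = ⋂ n, (sub i) ⁻¹' {ω : W | Hl r n ω} := by
        ext ω
        simp
      rw [this]
      exact MeasurableSet.iInter (fun n => meas_sub i (h r n))
    have hC : {ω : W | i < (ω []).1 → ∀ n, Hl r n (sub i ω)}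
        = {ω : W | i < (ω []).1}ᶜ ∪ {ω : W | ∀ n, Hl r n (sub i ω)} := by
      ext ω
      simp only [mem_setOf_eq, mem_union, mem_compl_iff]
      exact imp_iff_not_or
    rw [hC]
    exact hA.compl.union hB
  have h3 : {ω : W | Gd r ω} = {ω : W | (ω []).2 = false} ∩
      ⋂ i, {ω : W | i < (ω []).1 → ∀ n, Hl r n (sub i ω)} := by
    ext ω
    simp only [mem_inter_iff, mem_iInter, mem_setOf_eq]
    rfl
  rw [h3]
  exact h1.inter (MeasurableSet.iInter h2)

end Pool.Agent.Q219.GWB.TMeasG
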