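import Pool.Agent.Q219.GWB.Stmts

namespace Pool.Agent.Q219.GWB.TMeasNL

open MeasureTheory ProbabilityTheory Set Filter Topology Pool.Agent.Q219.GWB

private theorem m1 (w : List ℕ) : Measurable (fun ω : W => (ω w).1) :=
  measurable_fst.comp (measurable_pi_apply w)

private theorem m2 (w : List ℕ) : Measurable (fun ω : W => (ω w).2) :=
  measurable_snd.comp (measurable_pi_apply w)

private theorem msub (i : ℕ) : Measurable (sub i) :=
  measurable_pi_lambda _ fun u => measurable_pi_apply (i :: u)

private theorem mtree (w : List ℕ) : MeasurableSet {ω : W | InTree (fun u => (ω u).1) w} := by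
  induction w with
  | nil =>
    have h : {ω : W | InTree (fun u => (ω u).1) []} = Set.univ := by
      ext ω; simp [InTree]
    rw [h]; exact MeasurableSet.univ
  | cons i w ih =>
    have h : {ω : W | InTree (fun u => (ω u).1) (i :: w)} =
        {ω : W | i < (ω []).1} ∩ sub i ⁻¹' {ω : W | InTree (fun u => (ω u).1) w} := by
      ext ω
      rfl
    rw [h]
    exact (measurableSet_lt measurable_const (m1 [])).inter (msub i ih)

theorem main : TaskMeasNL := by
  have h : {ω : W | NL ω} = ⋂ w : List ℕ, ({ω : W | InTree (fun u => (ω u).1) w}ᶜ ∪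
      ({ω : W | (ω w).1 = 0}ᶜ ∪ {ω : W | (ω w).2 = true})) := by
    ext ω
    simp only [NL, Set.mem_setOf_eq, Set.mem_iInter, Set.mem_union, Set.mem_compl_iff]
    refine forall_congr' fun w => ?_
    tauto
  show MeasurableSet {ω : W | NL ω}
  rw [h]
  refine MeasurableSet.iInter fun w => (mtree w).compl.union (MeasurableSet.union ?_ ?_)
  · exact (m1 w (measurableSet_singleton 0)).compl
  · exact m2 w (measurableSet_singleton true)

end Pool.Agent.Q219.GWB.TMeasNL
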