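import Pool.Agent.Q219.GWB.Stmts

set_option autoImplicit false

namespace Pool.Agent.Q219.GWB.TNLIff

open Pool.Agent.Q219.GWB

theorem main : Pool.Agent.Q219.GWB.TaskNLIff := by
  intro ω
  constructor
  · intro h
    refine ⟨fun h0 => h [] ?_ h0, ?_⟩
    · simp [InTree]
    · intro i hi w hw h0
      refine h (i :: w) ?_ h0
      simp only [InTree]
      exact ⟨hi, hw⟩
  · rintro ⟨h1, h2⟩ w hw h0
    cases w with
    | nil => exact h1 h0
    | cons i w =>
      simp only [InTree] at hw
      exact h2 i hw.1 w hw.2 h0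

end Pool.Agent.Q219.GWB.TNLIff
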