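import Pool.Agent.Q219.GWB.Stmts

set_option autoImplicit false

/-! The ray: two adjacent healthy vertices block (helper158). -/

namespace Pool.Agent.Q219.GWB.TOnes

open MeasureTheory ProbabilityTheory Set Filter Topology

theorem bern_prob {p : ℝ} (h0 : 0 ≤ p) (h1 : p ≤ 1) : IsProbabilityMeasure (bern p) := by
  constructor
  unfold bern
  rw [Measure.add_apply, Measure.smul_apply, Measure.smul_apply, measure_univ, measure_univ]
  simp only [smul_eq_mul, mul_one]
  rw [← ENNReal.ofReal_add h0 (by linarith)]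
  norm_num

theorem bern_false (p : ℝ) : bern p {false} = ENNReal.ofReal (1 - p) := by
  unfold bern
  rw [Measure.add_apply, Measure.smul_apply, Measure.smul_apply, Measure.dirac_apply,
    Measure.dirac_apply]
  simp

theorem blocks {p : ℝ} (h0 : 0 ≤ p) (h1 : p < 1) :
    Ini p {η | ∀ n : ℕ, ¬ (η (List.replicate (2 * n) 0) = false ∧
      η (List.replicate (2 * n + 1) 0) = false)} = 0 := by
  have hb := bern_prob h0 h1.le
  obtain ⟨μ, hμ⟩ : ∃ μ, μ = Ini p := ⟨_, rfl⟩
  have hμp : IsProbabilityMeasure μ := by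
    rw [hμ]
    unfold Ini
    infer_instance
  obtain ⟨g, hg⟩ : ∃ g : ℕ → (List ℕ → Bool) → Bool, g = fun j η => η (List.replicate j 0) :=
    ⟨_, rfl⟩
  have hgm : ∀ j, Measurable (g j) := by
    intro j
    rw [hg]
    exact measurable_pi_apply _
  have hind : iIndepFun g μ := by
    have h := iIndepFun_infinitePi (ι := List ℕ) (Ω := fun _ => Bool) (P := fun _ => bern p)
      (X := fun _ => id) (fun _ => measurable_id)
    have h2 := h.precomp (g := fun j : ℕ => List.replicate j (0 : ℕ))
      (fun a b hab => by simpa using congrArg List.length hab)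
    rw [hg, hμ]
    exact h2
  have hf : ∀ j, μ (g j ⁻¹' {false}) = ENNReal.ofReal (1 - p) := by
    intro j
    have h := (measurePreserving_eval_infinitePi (fun _ : List ℕ => bern p)
      (List.replicate j 0)).measure_preimage (measurableSet_singleton false).nullMeasurableSet
    rw [← bern_false, ← h, hμ, hg]
    rfl
  -- the blocks
  obtain ⟨q, hq⟩ : ∃ q : ENNReal, q = 1 - ENNReal.ofReal (1 - p) * ENNReal.ofReal (1 - p) :=
    ⟨_, rfl⟩
  have hq1 : q < 1 := by
    rw [hq]
    refine ENNReal.sub_lt_self ENNReal.one_ne_top one_ne_zero ?_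
    have : 0 < ENNReal.ofReal (1 - p) := ENNReal.ofReal_pos.2 (by linarith)
    exact (ENNReal.mul_pos this.ne' this.ne').ne'
  have hC : ∀ N : ℕ, μ ((g (2 * N) ⁻¹' {false} ∩ g (2 * N + 1) ⁻¹' {false})ᶜ) = q := by
    intro N
    rw [prob_compl_eq_one_sub (((hgm _) (measurableSet_singleton _)).inter
      ((hgm _) (measurableSet_singleton _))), hq]
    congr 1
    rw [(hind.indepFun (i := 2 * N) (j := 2 * N + 1) (by omega)).measure_inter_preimage_eq_mul
      _ _ (measurableSet_singleton _) (measurableSet_singleton _), hf, hf]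
  have hE : ∀ N : ℕ, μ {η | ∀ n < N, ¬ (g (2 * n) η = false ∧ g (2 * n + 1) η = false)} ≤ q ^ N := by
    intro N
    induction N with
    | zero =>
      rw [pow_zero]
      exact prob_le_one
    | succ N ih =>
      have hd : Disjoint (Finset.range (2 * N)) ({2 * N, 2 * N + 1} : Finset ℕ) := by
        rw [Finset.disjoint_left]
        intro a ha hb
        rw [Finset.mem_range] at ha
        rw [Finset.mem_insert, Finset.mem_singleton] at hb
        omega
      have hI := hind.indepFun_finset (Finset.range (2 * N)) {2 * N, 2 * N + 1} hd hgm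
      have e := hI.measure_inter_preimage_eq_mul
        {y | ∀ n (hn : n < N), ¬ (y ⟨2 * n, Finset.mem_range.2 (by omega)⟩ = false ∧
          y ⟨2 * n + 1, Finset.mem_range.2 (by omega)⟩ = false)}
        {y | ¬ (y ⟨2 * N, by simp⟩ = false ∧ y ⟨2 * N + 1, by simp⟩ = false)}
        (Set.toFinite _).measurableSet (Set.toFinite _).measurableSet
      have h1 : {η | ∀ n < N + 1, ¬ (g (2 * n) η = false ∧ g (2 * n + 1) η = false)} ⊆
          ((fun a (i : Finset.range (2 * N)) => g i a) ⁻¹'
            {y | ∀ n (hn : n < N), ¬ (y ⟨2 * n, Finset.mem_range.2 (by omega)⟩ = false ∧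
              y ⟨2 * n + 1, Finset.mem_range.2 (by omega)⟩ = false)}) ∩
          ((fun a (i : ({2 * N, 2 * N + 1} : Finset ℕ)) => g i a) ⁻¹'
            {y | ¬ (y ⟨2 * N, by simp⟩ = false ∧ y ⟨2 * N + 1, by simp⟩ = false)}) := by
        intro η hη
        exact ⟨fun n hn => hη n (by omega), hη N (by omega)⟩
      refine (measure_mono h1).trans ?_
      rw [e, pow_succ]
      refine mul_le_mul' (le_trans (measure_mono fun η hη => ?_) ih) (le_of_eq ?_)
      · exact fun n hn => hη n hn
      · rw [← hC N]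
        rfl
  refine le_antisymm ?_ bot_le
  refine ge_of_tendsto' (ENNReal.tendsto_pow_atTop_nhds_zero_of_lt_one hq1) fun N => ?_
  refine le_trans (measure_mono ?_) ((le_of_eq (by rw [hμ])).trans (hE N))
  intro η hη n _
  rw [hg]
  exact hη n

theorem inTree_ones {ξ : List ℕ → ℕ} (h : ∀ w, ξ w = 1) (w : List ℕ) :
    InTree ξ w ↔ w = List.replicate w.length 0 := by
  induction w generalizing ξ with
  | nil => simp [InTree]
  | cons i w ih =>
    unfold InTree
    rw [h, ih (fun u => h _), List.length_cons, List.replicate_succ, List.cons.injEq]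
    constructor
    · rintro ⟨h1, h2⟩
      exact ⟨by omega, h2⟩
    · rintro ⟨h1, h2⟩
      exact ⟨by omega, h2⟩

theorem main (hFort : TaskFort) : Pool.Agent.Q219.GWB.TaskOnes := by
  intro ν hν h1 r p hr h0 hp
  have hall : ∀ᵐ ξ ∂(GW ν), ∀ w : List ℕ, ξ w = 1 := by
    rw [ae_all_iff]
    intro w
    have h := (measurePreserving_eval_infinitePi (fun _ : List ℕ => ν) w).measure_preimage
      (measurableSet_singleton 1).compl.nullMeasurableSet
    have h2 : ν ({1}ᶜ : Set ℕ) = 0 := by
      rw [prob_compl_eq_one_sub (measurableSet_singleton 1), h1, tsub_self]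
    rw [h2] at h
    exact h
  filter_upwards [hall] with ξ hξ
  refine measure_mono_null ?_ (blocks h0 hp)
  intro η hη n hn
  obtain ⟨ha, hb⟩ := hn
  have hin : ∀ j : ℕ, InTree ξ (List.replicate j 0) := fun j =>
    (inTree_ones hξ _).2 (by rw [List.length_replicate])
  -- the neighbours
  have hnb : ∀ j : ℕ, ∀ u ∈ nbrs ξ (List.replicate j 0), u = List.replicate (j + 1) 0 ∨
      (1 ≤ j ∧ u = List.replicate (j - 1) 0) := by
    rintro j u ⟨hu, i, h | h⟩
    · left
      rw [inTree_ones hξ] at hu
      rw [hu, h]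
      simp
    · right
      rw [inTree_ones hξ] at hu
      have hl := congrArg List.length h
      simp at hl
      refine ⟨by omega, ?_⟩
      rw [hu]
      congr 1
      omega
  obtain ⟨F, hF⟩ : ∃ F : Set (List ℕ), F = {List.replicate (2 * n) 0, List.replicate (2 * n + 1) 0} :=
    ⟨_, rfl⟩
  have hfort : IsFort ξ r η F := by
    intro v hv
    rw [hF] at hv
    rcases hv with rfl | hv
    · refine ⟨hin _, ha, lt_of_le_of_lt ?_ (show (1 : ℕ∞) < r by exact_mod_cast hr)⟩
      rw [Set.encard_le_one_iff]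
      rintro a b ⟨ha1, ha2⟩ ⟨hb1, hb2⟩
      rcases hnb _ a ha1 with h | ⟨-, h⟩
      · exact absurd (by rw [hF, h]; simp) ha2
      · rcases hnb _ b hb1 with h' | ⟨-, h'⟩
        · exact absurd (by rw [hF, h']; simp) hb2
        · rw [h, h']
    · rw [Set.mem_singleton_iff] at hv
      subst hv
      refine ⟨hin _, hb, lt_of_le_of_lt ?_ (show (1 : ℕ∞) < r by exact_mod_cast hr)⟩
      rw [Set.encard_le_one_iff]
      rintro a b ⟨ha1, ha2⟩ ⟨hb1, hb2⟩
      rcases hnb _ a ha1 with h | ⟨-, h⟩
      · rcases hnb _ b hb1 with h' | ⟨-, h'⟩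
        · rw [h, h']
        · exact absurd (by rw [hF, h']; simp) hb2
      · exact absurd (by rw [hF, h]; simp) ha2
  obtain ⟨t, ht⟩ := hη (List.replicate (2 * n) 0) (hin _)
  exact Set.disjoint_left.1 (hFort ξ r η F hfort t) (by rw [hF]; simp) ht

end Pool.Agent.Q219.GWB.TOnes
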