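import Pool.Agent.Q219.GWB.Stmts

set_option autoImplicit false

namespace Pool.Agent.Q219.GWB.TPc

open MeasureTheory ProbabilityTheory Set Filter Topology
open Pool.Agent.Q219.GWB

theorem bern_one : bern 1 = Measure.dirac true := by simp [bern]

theorem ae_true : ∀ᵐ η ∂(Ini 1), ∀ v : List ℕ, η v = true := by
  unfold Ini
  rw [bern_one, ae_all_iff]
  intro v
  have h := measurePreserving_eval_infinitePi (fun _ : List ℕ => Measure.dirac true) v
  have h2 : ∀ᵐ b ∂(Measure.dirac true), b = true := by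
    rw [ae_dirac_eq]
    simp
  exact h.quasiMeasurePreserving.ae h2

theorem pos (ξ : List ℕ → ℕ) (r : ℕ) : 0 < Ini 1 {η | Percolates ξ r η} := by
  haveI : IsProbabilityMeasure (Ini 1) := by
    unfold Ini
    rw [bern_one]
    infer_instance
  have h1 : ∀ᵐ η ∂(Ini 1), Percolates ξ r η :=
    ae_true.mono fun η hη v hv => ⟨0, hv, hη v⟩
  refine pos_iff_ne_zero.2 fun h0 => ?_
  have h2 : ∀ᵐ η ∂(Ini 1), ¬ Percolates ξ r η := by
    rw [ae_iff]
    simpa using h0
  obtain ⟨η, ha, hb⟩ := (h1.and h2).exists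
  exact hb ha

theorem main (hC : TaskCoup) : Pool.Agent.Q219.GWB.TaskPc := by
  intro ξ r p hp0 hp1 h
  unfold pc
  refine le_csInf ⟨1, zero_le_one, le_refl _, pos ξ r⟩ ?_
  rintro q ⟨hq0, hq1, hq⟩
  by_contra hlt
  exact hq.ne' (hC ξ r q p hq0 (not_le.1 hlt).le hp1 h)

end Pool.Agent.Q219.GWB.TPc
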