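import Pool.Agent.Q219.GWB.Stmts

set_option autoImplicit false

namespace Pool.Agent.Q219.GWB.TRay

open MeasureTheory ProbabilityTheory Set Filter Topology Pool.Agent.Q219.GWB

theorem inT (n : ℕ) : ∀ ξ : List ℕ → ℕ, (∀ w, 1 ≤ ξ w) → InTree ξ (List.replicate n 0) := by
  induction n with
  | zero => intro ξ _; simp [InTree]
  | succ n ih =>
    intro ξ h
    rw [List.replicate_succ]
    exact ⟨h [], ih _ fun w => h _⟩

theorem inT1 (n : ℕ) : ∀ ξ : List ℕ → ℕ, (∀ w, 1 ≤ ξ w) → 2 ≤ ξ (List.replicate n 0) →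
    InTree ξ (List.replicate n 0 ++ [1]) := by
  induction n with
  | zero =>
    intro ξ _ h2
    refine ⟨h2, ?_⟩
    simp [InTree]
  | succ n ih =>
    intro ξ h h2
    rw [List.replicate_succ, List.cons_append]
    exact ⟨h [], ih _ (fun w => h _) h2⟩

theorem main : Pool.Agent.Q219.GWB.TaskRay := by
  intro ν hν h0
  have h : ∀ᵐ ξ ∂(GW ν), ∀ w : List ℕ, 1 ≤ ξ w := by
    rw [ae_all_iff]
    intro w
    have h1 : ∀ᵐ k ∂ν, 1 ≤ k := by
      rw [ae_iff]
      have : {a : ℕ | ¬ 1 ≤ a} = {0} := by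
        ext a
        simp
      rw [this]
      exact h0
    exact (measurePreserving_eval_infinitePi (fun _ : List ℕ => ν) w).quasiMeasurePreserving.ae h1
  filter_upwards [h] with ξ hξ n
  exact ⟨inT n ξ hξ, inT1 n ξ hξ⟩

end Pool.Agent.Q219.GWB.TRay
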