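import Pool.Agent.Q219.GWB.Stmts

set_option autoImplicit false

namespace Pool.Agent.Q219.GWB.TRec

open MeasureTheory ProbabilityTheory Set Filter Topology

theorem main (hBr : TaskBranch) (hBin : TaskBin) (hM : TaskMeas) (hBe : TaskBern)
    (hBt : TaskBtRange) : Pool.Agent.Q219.GWB.TaskRec := by
  classical
  intro ν hν r n p hp0 hp1
  have := hν
  have : IsProbabilityMeasure (bern p) := hBe p hp0 hp1
  obtain ⟨L, hL⟩ : ∃ L : Measure W, L = P ν p := ⟨_, rfl⟩
  have : IsProbabilityMeasure L := by rw [hL]; unfold P; infer_instance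
  obtain ⟨E, hE⟩ : ∃ E : Set W, E = {ω | Hl r n ω} := ⟨_, rfl⟩
  have hEm : MeasurableSet E := by rw [hE]; exact hM r n
  obtain ⟨q, hq⟩ : ∃ q : ℝ, q = (L E).toReal := ⟨_, rfl⟩
  have hq0 : 0 ≤ q := by rw [hq]; exact ENNReal.toReal_nonneg
  have hq1 : q ≤ 1 := by
    rw [hq]
    exact ENNReal.toReal_le_of_le_ofReal zero_le_one (by simpa using prob_le_one)
  have hb := fun k : ℕ => hBt k r (1 - q) (by linarith) (by linarith)
  let G : ℕ → Set (ℕ → W) := fun k => {f | {i : ℕ | i < k ∧ f i ∉ E}.ncard < r}
  have hG : ∀ k, (Measure.infinitePi (fun _ : ℕ => L)) (G k) =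
      ENNReal.ofReal (1 - bt k r (1 - q)) := by
    intro k
    rw [hq, ← hBin W inferInstance L inferInstance E hEm k r,
      ENNReal.ofReal_toReal (measure_ne_top _ _)]
  have hGm : ∀ k, MeasurableSet (G k) := by
    intro k
    let c : (ℕ → W) → ℕ := fun f => ∑ i ∈ Finset.range k, if f i ∈ E then 0 else 1
    have hc : Measurable c := by
      refine Finset.measurable_sum _ (fun i _ => ?_)
      exact Measurable.ite (measurable_pi_apply i hEm) measurable_const measurable_const
    have h1 : G k = c ⁻¹' Set.Iio r := by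
      ext f
      have h2 : {i : ℕ | i < k ∧ f i ∉ E} =
          (((Finset.range k).filter (fun i => f i ∉ E) : Finset ℕ) : Set ℕ) := by
        ext i; simp
      simp only [G, Set.mem_ofPred_eq, Set.mem_preimage, Set.mem_Iio, c]
      rw [h2, Set.ncard_coe_finset, Finset.card_filter]
      simp only [ite_not]
    rw [h1]
    exact hc measurableSet_Iio
  let A : Set ((ℕ × Bool) × (ℕ → W)) := {z | z.1.2 = false ∧ z.2 ∈ G z.1.1}
  have hAm : MeasurableSet A := by
    have h1 : A = ⋃ x : ℕ × Bool, ({x} ×ˢ (if x.2 = false then G x.1 else ∅)) := by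
      ext z
      simp only [A, Set.mem_ofPred_eq, Set.mem_iUnion, Set.mem_prod, Set.mem_singleton_iff]
      constructor
      · rintro ⟨h1, h2⟩
        exact ⟨z.1, rfl, by rw [if_pos h1]; exact h2⟩
      · rintro ⟨x, hx, h2⟩
        by_cases h3 : x.2 = false
        · rw [if_pos h3] at h2
          rw [hx]
          exact ⟨h3, h2⟩
        · rw [if_neg h3] at h2
          exact absurd h2 (Set.notMem_empty _)
    rw [h1]
    refine MeasurableSet.iUnion (fun x => (measurableSet_singleton x).prod ?_)
    split_ifs
    · exact hGm _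
    · exact MeasurableSet.empty
  have hΦ : Measurable (fun ω : W => (ω [], fun i : ℕ => fun u : List ℕ => ω (i :: u))) :=
    (measurable_pi_apply _).prodMk
      (measurable_pi_lambda _ fun i => measurable_pi_lambda _ fun u => measurable_pi_apply _)
  have hpre : {ω : W | Hl r (n + 1) ω} =
      (fun ω : W => (ω [], fun i : ℕ => fun u : List ℕ => ω (i :: u))) ⁻¹' A := by
    ext ω
    simp only [A, G, hE, Set.mem_ofPred_eq, Set.mem_preimage, Hl]
    rfl
  have hPL : L = Measure.infinitePi (fun _ : List ℕ => ν.prod (bern p)) := hL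
  have h1 : L {ω | Hl r (n + 1) ω} =
      ((ν.prod (bern p)).prod (Measure.infinitePi (fun _ : ℕ => L))) A := by
    rw [hpre, ← Measure.map_apply hΦ hAm, hPL,
      hBr (ℕ × Bool) _ (ν.prod (bern p)) inferInstance]
  have h2 : ((ν.prod (bern p)).prod (Measure.infinitePi (fun _ : ℕ => L))) A =
      ∫⁻ k, ENNReal.ofReal (1 - p) * ENNReal.ofReal (1 - bt k r (1 - q)) ∂ν := by
    rw [Measure.prod_apply hAm]
    have h3 : ∀ x : ℕ × Bool, (Measure.infinitePi (fun _ : ℕ => L)) (Prod.mk x ⁻¹' A) =
        if x.2 = false then ENNReal.ofReal (1 - bt x.1 r (1 - q)) else 0 := by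
      intro x
      by_cases hx : x.2 = false
      · rw [if_pos hx, ← hG]
        congr 1
        ext f
        simp only [A, Set.mem_preimage, Set.mem_ofPred_eq, hx, true_and]
      · rw [if_neg hx]
        have : (Prod.mk x ⁻¹' A : Set (ℕ → W)) = ∅ := by
          ext f
          constructor
          · intro h
            exact absurd h.1 hx
          · intro h
            exact absurd h (Set.notMem_empty _)
        rw [this, measure_empty]
    simp_rw [h3]
    rw [lintegral_prod _ (Measurable.of_discrete).aemeasurable]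
    refine lintegral_congr (fun k => ?_)
    simp only [bern, lintegral_add_measure, lintegral_smul_measure, lintegral_dirac]
    simp
  have hint : Integrable (fun k : ℕ => bt k r (1 - q)) ν := by
    refine Integrable.of_bound (Measurable.of_discrete).aestronglyMeasurable 1 ?_
    refine Filter.Eventually.of_forall (fun k => ?_)
    rw [Real.norm_eq_abs, abs_of_nonneg (hb k).1]
    exact (hb k).2
  rw [← hL, h1, h2, lintegral_const_mul _ Measurable.of_discrete, ENNReal.toReal_mul,
    ENNReal.toReal_ofReal (by linarith), ← hE, ← hq]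
  congr 1
  have hint2 : Integrable (fun k : ℕ => 1 - bt k r (1 - q)) ν := (integrable_const _).sub hint
  rw [← ofReal_integral_eq_lintegral_ofReal hint2
    (Filter.Eventually.of_forall (fun k => by
      show (0 : ℝ) ≤ 1 - bt k r (1 - q)
      linarith [(hb k).2]))]
  rw [ENNReal.toReal_ofReal (integral_nonneg (fun k => by
      show (0 : ℝ) ≤ 1 - bt k r (1 - q)
      linarith [(hb k).2]))]
  rw [integral_sub (integrable_const _) hint]
  simp [B]

end Pool.Agent.Q219.GWB.TRec
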