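import Pool.Agent.Q219.GWB.Stmts

set_option autoImplicit false

namespace Pool.Agent.Q219.GWB.TRecE

open Pool.Agent.Q219.GWB
open MeasureTheory ProbabilityTheory Set Filter Topology

theorem main (hBr : TaskBranch) (hAll : TaskAll) (hBern : TaskBern) :
    Pool.Agent.Q219.GWB.TaskRecE := by
  intro ν hν p hp0 hp1 E hE hEiff
  have hbp : IsProbabilityMeasure (bern p) := hBern p hp0 hp1
  obtain ⟨ρ, hρ⟩ : ∃ ρ : Measure (ℕ × Bool), ρ = ν.prod (bern p) := ⟨_, rfl⟩
  have hρp : IsProbabilityMeasure ρ := by rw [hρ]; infer_instance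
  obtain ⟨μ, hμ⟩ : ∃ μ : Measure W, μ = P ν p := ⟨_, rfl⟩
  have hμ' : μ = Measure.infinitePi (fun _ : List ℕ => ρ) := by rw [hμ, hρ]; rfl
  have hμp : IsProbabilityMeasure μ := by rw [hμ']; infer_instance
  rw [← hμ]
  obtain ⟨Q, hQ⟩ : ∃ Q : Measure (ℕ → W), Q = Measure.infinitePi (fun _ : ℕ => μ) := ⟨_, rfl⟩
  have hQp : IsProbabilityMeasure Q := by rw [hQ]; infer_instance
  let T : W → (ℕ × Bool) × (ℕ → W) := fun ω => (ω [], fun i : ℕ => fun u : List ℕ => ω (i :: u))
  have hTm : Measurable T := by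
    refine Measurable.prodMk (measurable_pi_apply _) ?_
    refine measurable_pi_lambda _ fun i => ?_
    exact measurable_pi_lambda _ fun u => measurable_pi_apply _
  have hT : μ.map T = ρ.prod Q := by
    rw [hQ, hμ']
    exact hBr (ℕ × Bool) inferInstance ρ hρp
  let A : Set ((ℕ × Bool) × (ℕ → W)) := {z | z.1 ∈ (({0} : Set ℕ) ×ˢ ({false} : Set Bool))}
  let U : Set ((ℕ × Bool) × (ℕ → W)) := {z | ∀ i, i < z.1.1 → z.2 i ∈ E}
  have hU : MeasurableSet U := by
    have h1 : U = ⋂ i : ℕ, ({z : (ℕ × Bool) × (ℕ → W) | i < z.1.1}ᶜ ∪ {z | z.2 i ∈ E}) := by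
      ext z
      simp [U, imp_iff_not_or]
    rw [h1]
    refine MeasurableSet.iInter fun i => MeasurableSet.union ?_ ?_
    · refine MeasurableSet.compl ?_
      have : Measurable (fun z : (ℕ × Bool) × (ℕ → W) => z.1.1) :=
        measurable_fst.comp measurable_fst
      exact this (MeasurableSet.of_discrete (s := {n : ℕ | i < n}))
    · exact ((measurable_pi_apply i).comp measurable_snd) hE
  have hA : MeasurableSet A :=
    measurable_fst (MeasurableSet.of_discrete (s := (({0} : Set ℕ) ×ˢ ({false} : Set Bool))))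
  have hAU : A ⊆ U := by
    rintro ⟨⟨k, b⟩, f⟩ hz i hi
    simp only [A, mem_setOf_eq, mem_prod, mem_singleton_iff] at hz
    simp only [hz.1] at hi
    exact absurd hi (Nat.not_lt_zero _)
  have hES : E = T ⁻¹' (U \ A) := by
    ext ω
    rw [hEiff ω]
    simp only [mem_preimage, mem_diff, U, A, T, mem_setOf_eq, mem_prod, mem_singleton_iff]
    constructor
    · rintro ⟨h1, h2⟩
      refine ⟨fun i hi => h2 i hi, fun h3 => ?_⟩
      have := h1 h3.1
      rw [h3.2] at this
      exact absurd this (by simp)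
    · rintro ⟨h1, h2⟩
      refine ⟨fun h3 => ?_, fun i hi => h1 i hi⟩
      by_contra h4
      exact h2 ⟨h3, by simpa using h4⟩
  have hμE : μ E = (ρ.prod Q) (U \ A) := by
    conv_lhs => rw [hES]
    rw [← hT, Measure.map_apply hTm (hU.diff hA)]
  have hsum : (ρ.prod Q) (U \ A) + (ρ.prod Q) A = (ρ.prod Q) U :=
    by rw [← measure_union disjoint_sdiff_left hA, diff_union_of_subset hAU]
  have hUval : (ρ.prod Q) U = ∫⁻ x, (μ E) ^ x.1 ∂ρ := by
    rw [Measure.prod_apply hU]
    refine lintegral_congr fun x => ?_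
    have : (Prod.mk x ⁻¹' U) = {f : ℕ → W | ∀ i, i < x.1 → f i ∈ E} := by
      ext f; simp [U]
    rw [this, hQ]
    exact hAll W inferInstance μ hμp E hE x.1
  have hfst : ∫⁻ x, (μ E) ^ x.1 ∂ρ = ∫⁻ k, (μ E) ^ k ∂ν := by
    have h1 : ρ.map Prod.fst = ν := by
      rw [hρ, Measure.map_fst_prod, measure_univ, one_smul]
    calc ∫⁻ x, (μ E) ^ x.1 ∂ρ = ∫⁻ k, (μ E) ^ k ∂(ρ.map Prod.fst) := by
          rw [lintegral_map (Measurable.of_discrete) measurable_fst]
      _ = _ := by rw [h1]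
  have hAval : (ρ.prod Q) A = ν {0} * ENNReal.ofReal (1 - p) := by
    have h1 : A = (({0} : Set ℕ) ×ˢ ({false} : Set Bool)) ×ˢ (univ : Set (ℕ → W)) := by
      ext z; simp [A]
    rw [h1, Measure.prod_prod, measure_univ, mul_one, hρ, Measure.prod_prod]
    congr 1
    simp [bern]
  have hkey : μ E + ν {0} * ENNReal.ofReal (1 - p) = ∫⁻ k, (μ E) ^ k ∂ν := by
    rw [← hfst, ← hUval, ← hsum, ← hμE, hAval]
  have hint : (∫⁻ k, (μ E) ^ k ∂ν).toReal = ∫ k, (μ E).toReal ^ k ∂ν := by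
    rw [← integral_toReal]
    · simp [ENNReal.toReal_pow]
    · exact (Measurable.of_discrete).aemeasurable
    · exact Eventually.of_forall fun k => ENNReal.pow_lt_top (measure_lt_top μ E)
  have h2 := congrArg ENNReal.toReal hkey
  rw [hint, ENNReal.toReal_add (measure_ne_top _ _) (ENNReal.mul_ne_top (measure_ne_top _ _)
    ENNReal.ofReal_ne_top), ENNReal.toReal_mul, ENNReal.toReal_ofReal (by linarith)] at h2
  linarith

end Pool.Agent.Q219.GWB.TRecE
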