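import Pool.Agent.Q219.GWB.Stmts

set_option autoImplicit false

namespace Pool.Agent.Q219.GWB.TRecF

open MeasureTheory ProbabilityTheory Set Filter Topology Pool.Agent.Q219.GWB

theorem main (hBr : TaskBranch) (hAll : TaskAll) (hBern : TaskBern) : TaskRecF := by
  intro ν hν p hp0 hp1 E hE hEiff
  haveI := hν
  haveI hb : IsProbabilityMeasure (bern p) := hBern p hp0 hp1
  haveI hρ : IsProbabilityMeasure (ν.prod (bern p)) := inferInstance
  haveI hP : IsProbabilityMeasure (P ν p) := by unfold P; infer_instance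
  have hbr := hBr (ℕ × Bool) inferInstance (ν.prod (bern p)) hρ
  set Φ : W → (ℕ × Bool) × (ℕ → W) := fun ω => (ω [], fun i : ℕ => fun u : List ℕ => ω (i :: u))
    with hΦ
  have hΦm : Measurable Φ := by
    refine Measurable.prodMk (measurable_pi_apply _) ?_
    exact measurable_pi_iff.2 fun i => measurable_pi_iff.2 fun u => measurable_pi_apply _
  set E' : Set ((ℕ × Bool) × (ℕ → W)) := {z | ∀ i, i < z.1.1 → z.2 i ∈ E} with hE'
  have hE'm : MeasurableSet E' := by
    have h1 : E' = ⋂ i : ℕ, ({z : (ℕ × Bool) × (ℕ → W) | i < z.1.1}ᶜ ∪ {z | z.2 i ∈ E}) := by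
      ext z
      simp only [hE', mem_setOf_eq, mem_iInter, mem_union, mem_compl_iff]
      exact forall_congr' fun i => imp_iff_not_or
    rw [h1]
    refine MeasurableSet.iInter fun i => ?_
    refine MeasurableSet.union (MeasurableSet.compl ?_) ?_
    · have h2 : Measurable fun z : (ℕ × Bool) × (ℕ → W) => z.1.1 :=
        measurable_fst.comp measurable_fst
      exact h2 (measurableSet_Ioi (a := i))
    · have h2 : Measurable fun z : (ℕ × Bool) × (ℕ → W) => z.2 i :=
        (measurable_pi_apply i).comp measurable_snd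
      exact h2 hE
  have hpre : Φ ⁻¹' E' = E := by
    ext ω
    exact (hEiff ω).symm
  have h1 : P ν p E = ((ν.prod (bern p)).prod (Measure.infinitePi (fun _ : ℕ => P ν p))) E' := by
    have h2 : (P ν p).map Φ = (ν.prod (bern p)).prod (Measure.infinitePi (fun _ : ℕ => P ν p)) := hbr
    rw [← h2, Measure.map_apply hΦm hE'm, hpre]
  have h3 : P ν p E = ∫⁻ k, (P ν p E) ^ k ∂ν := by
    conv_lhs => rw [h1]
    rw [Measure.prod_apply hE'm]
    have h4 : ∀ x : ℕ × Bool, (Measure.infinitePi (fun _ : ℕ => P ν p)) (Prod.mk x ⁻¹' E') =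
        (P ν p E) ^ x.1 := fun x => hAll W inferInstance (P ν p) hP E hE x.1
    simp only [h4]
    have h5 : ∫⁻ x : ℕ × Bool, (P ν p E) ^ x.1 ∂(ν.prod (bern p)) =
        ∫⁻ k, (P ν p E) ^ k ∂((ν.prod (bern p)).map Prod.fst) := by
      rw [lintegral_map (measurable_of_countable _) measurable_fst]
    rw [h5, Measure.map_fst_prod, measure_univ, one_smul]
  have hne : P ν p E ≠ ⊤ := measure_ne_top _ _
  rw [integral_eq_lintegral_of_nonneg_ae (ae_of_all _ fun k => by positivity)
    (measurable_of_countable _).aestronglyMeasurable]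
  have h6 : ∀ k : ℕ, ENNReal.ofReal ((P ν p E).toReal ^ k) = (P ν p E) ^ k := fun k => by
    rw [ENNReal.ofReal_pow ENNReal.toReal_nonneg, ENNReal.ofReal_toReal hne]
  simp only [h6]
  rw [← h3]

end Pool.Agent.Q219.GWB.TRecF
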