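import Pool.Agent.Q219.GWB.Stmts

set_option autoImplicit false

open MeasureTheory ProbabilityTheory Set Filter Topology

namespace Pool.Agent.Q219.GWB.TSubcrit

open Pool.Agent.Q219.GWB

theorem main (hRecF : TaskRecF) (hFinIff : TaskFinIff) (hMeasFin : TaskMeasFin) (hZip : TaskZip)
    (hBern : TaskBern) : Pool.Agent.Q219.GWB.TaskSubcrit := by
  intro ν hν hint hm
  haveI hb : IsProbabilityMeasure (bern (1 / 2)) := hBern _ (by norm_num) (by norm_num)
  haveI hP : IsProbabilityMeasure (P ν (1 / 2)) := by unfold P; infer_instance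
  haveI hI : IsProbabilityMeasure (Ini (1 / 2)) := by unfold Ini; infer_instance
  set E : Set W := {ω : W | Fin' ω} with hE
  have hEm : MeasurableSet E := hMeasFin
  have hrec := hRecF ν hν (1 / 2) (by norm_num) (by norm_num) E hEm (fun ω => hFinIff ω)
  set s : ℝ := (P ν (1 / 2) E).toReal with hs
  have hs0 : 0 ≤ s := ENNReal.toReal_nonneg
  have hs1 : s ≤ 1 := by
    have : P ν (1 / 2) E ≤ 1 := prob_le_one
    have h2 := ENNReal.toReal_mono ENNReal.one_ne_top this
    rw [ENNReal.toReal_one] at h2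
    exact h2
  have hi1 : Integrable (fun k : ℕ => s ^ k) ν := by
    refine Integrable.of_bound (C := 1) ?_ ?_
    · exact (measurable_from_top (f := fun k : ℕ => s ^ k)).aestronglyMeasurable
    · refine Eventually.of_forall fun k => ?_
      rw [Real.norm_of_nonneg (pow_nonneg hs0 k)]
      exact pow_le_one₀ hs0 hs1
  have hi2 : Integrable (fun k : ℕ => 1 + (k : ℝ) * (s - 1)) ν :=
    (integrable_const (1 : ℝ)).add (hint.mul_const _)
  have hle : ∫ k : ℕ, (1 + (k : ℝ) * (s - 1)) ∂ν ≤ ∫ k : ℕ, s ^ k ∂ν := by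
    refine integral_mono hi2 hi1 fun k => ?_
    have h := one_add_mul_le_pow (a := s - 1) (by linarith) k
    have e : (1 : ℝ) + (s - 1) = s := by ring
    rw [e] at h
    exact h
  have hval : ∫ k : ℕ, (1 + (k : ℝ) * (s - 1)) ∂ν = 1 + (∫ k : ℕ, (k : ℝ) ∂ν) * (s - 1) := by
    rw [integral_add (integrable_const (1 : ℝ)) (hint.mul_const _), integral_mul_const]
    simp
  rw [hval, ← hrec] at hle
  have hs2 : s = 1 := by nlinarith
  have hPE : P ν (1 / 2) E = 1 := by
    have h1 : (P ν (1 / 2) E).toReal = (1 : ENNReal).toReal := by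
      rw [← hs, hs2]; simp
    exact (ENNReal.toReal_eq_toReal_iff' (measure_ne_top _ _) ENNReal.one_ne_top).1 h1
  have hae : ∀ᵐ ω ∂(P ν (1 / 2)), Fin' ω := by
    have := (prob_compl_eq_zero_iff hEm).2 hPE
    exact this
  have hz := hZip ν (bern (1 / 2)) hν hb
  have hae2 : ∀ᵐ ω ∂(((Measure.infinitePi (fun _ : List ℕ => ν)).prod
      (Measure.infinitePi (fun _ : List ℕ => bern (1 / 2)))).map
      (fun z => fun w => (z.1 w, z.2 w))), Fin' ω := by
    rw [hz]
    exact hae
  have hmeas : Measurable (fun z : (List ℕ → ℕ) × (List ℕ → Bool) =>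
      fun w => (z.1 w, z.2 w)) := by
    refine measurable_pi_lambda _ fun w => ?_
    exact ((measurable_pi_apply w).comp measurable_fst).prodMk
      ((measurable_pi_apply w).comp measurable_snd)
  have hae3 := ae_of_ae_map hmeas.aemeasurable hae2
  have hae4 := Measure.ae_ae_of_ae_prod hae3
  unfold GW
  filter_upwards [hae4] with ξ hξ
  obtain ⟨η, hη⟩ := hξ.exists
  exact hη

end Pool.Agent.Q219.GWB.TSubcrit
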