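import Pool.Agent.Q219.GWB.Stmts

set_option autoImplicit false

namespace Pool.Agent.Q219.GWB.TUnion

open Pool.Agent.Q219.GWB

theorem bt_eq (n r : ℕ) (y : ℝ) : bt (r + n) r y =
    ∑ i ∈ Finset.range (n + 1), ((r + n).choose (r + i) : ℝ) * y ^ (r + i) * (1 - y) ^ (n - i) := by
  unfold bt
  rw [← Finset.Ico_add_one_right_eq_Icc, Finset.sum_Ico_eq_sum_range]
  have h : r + n + 1 - r = n + 1 := by omega
  rw [h]
  refine Finset.sum_congr rfl fun i hi => ?_
  have : r + n - (r + i) = n - i := by omega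
  rw [this]

theorem bt_le (k r : ℕ) (y : ℝ) (hy0 : 0 ≤ y) (hy1 : y ≤ 1) : bt k r y ≤ (k.choose r : ℝ) * y ^ r := by
  rcases Nat.lt_or_ge k r with hkr | hkr
  · unfold bt
    rw [Finset.Icc_eq_empty (by omega), Finset.sum_empty]
    positivity
  · obtain ⟨n, rfl⟩ := Nat.exists_eq_add_of_le hkr
    rw [bt_eq]
    have h1 : ∑ m ∈ Finset.range (n + 1), y ^ m * (1 - y) ^ (n - m) * (n.choose m : ℝ) = 1 := by
      rw [← add_pow]
      simp
    calc ∑ i ∈ Finset.range (n + 1), ((r + n).choose (r + i) : ℝ) * y ^ (r + i) * (1 - y) ^ (n - i)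
        ≤ ∑ i ∈ Finset.range (n + 1), ((r + n).choose r : ℝ) * y ^ r *
          (y ^ i * (1 - y) ^ (n - i) * (n.choose i : ℝ)) := by
          refine Finset.sum_le_sum fun i hi => ?_
          have hi' : i ≤ n := Nat.lt_succ_iff.1 (Finset.mem_range.1 hi)
          have h2 : (r + n).choose (r + i) * (r + i).choose r =
              (r + n).choose r * (n.choose i) := by
            have := Nat.choose_mul (n := r + n) (k := r + i) (s := r) (by omega) 
            rw [this]
            congr 2 <;> omega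
          have h3 : (r + n).choose (r + i) ≤ (r + n).choose r * (n.choose i) := by
            rw [← h2]
            exact Nat.le_mul_of_pos_right _ (Nat.choose_pos (by omega))
          have h4 : ((r + n).choose (r + i) : ℝ) ≤ ((r + n).choose r : ℝ) * (n.choose i : ℝ) := by
            exact_mod_cast h3
          have h5 : 0 ≤ y ^ (r + i) * (1 - y) ^ (n - i) := by
            have : 0 ≤ 1 - y := by linarith
            positivity
          calc ((r + n).choose (r + i) : ℝ) * y ^ (r + i) * (1 - y) ^ (n - i)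
              = ((r + n).choose (r + i) : ℝ) * (y ^ (r + i) * (1 - y) ^ (n - i)) := by ring
            _ ≤ (((r + n).choose r : ℝ) * (n.choose i : ℝ)) * (y ^ (r + i) * (1 - y) ^ (n - i)) :=
                mul_le_mul_of_nonneg_right h4 h5
            _ = _ := by rw [pow_add]; ring
      _ = ((r + n).choose r : ℝ) * y ^ r := by
          rw [← Finset.mul_sum, h1, mul_one]

theorem bt_le_one (k r : ℕ) (y : ℝ) (hy0 : 0 ≤ y) (hy1 : y ≤ 1) : bt k r y ≤ 1 := by
  have h0 : 0 ≤ 1 - y := by linarith
  have h1 : ∑ m ∈ Finset.range (k + 1), y ^ m * (1 - y) ^ (k - m) * (k.choose m : ℝ) = 1 := by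
    rw [← add_pow]
    simp
  unfold bt
  calc ∑ j ∈ Finset.Icc r k, (k.choose j : ℝ) * y ^ j * (1 - y) ^ (k - j)
      = ∑ j ∈ Finset.Icc r k, y ^ j * (1 - y) ^ (k - j) * (k.choose j : ℝ) :=
        Finset.sum_congr rfl fun j _ => by ring
    _ ≤ ∑ m ∈ Finset.range (k + 1), y ^ m * (1 - y) ^ (k - m) * (k.choose m : ℝ) := by
        refine Finset.sum_le_sum_of_subset_of_nonneg ?_ fun j _ _ => by positivity
        intro j hj
        rw [Finset.mem_Icc] at hj
        rw [Finset.mem_range]
        omega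
    _ = 1 := h1

theorem main : Pool.Agent.Q219.GWB.TaskUnion := by
  intro k r y α hr hy0 hy1 hα hαr
  have hky : 0 ≤ (k : ℝ) * y := by positivity
  rcases le_or_gt 1 ((k : ℝ) * y) with h | h
  · exact (bt_le_one k r y hy0 hy1).trans (Real.one_le_rpow h (by linarith))
  · have h1 : bt k r y ≤ ((k : ℝ) * y) ^ r := by
      refine (bt_le k r y hy0 hy1).trans ?_
      rw [mul_pow]
      have h2 : (k.choose r : ℝ) ≤ (k : ℝ) ^ r := by
        exact_mod_cast Nat.choose_le_pow k r
      exact mul_le_mul_of_nonneg_right h2 (by positivity)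
    refine h1.trans ?_
    rw [← Real.rpow_natCast]
    rcases hky.eq_or_lt with h0 | h0
    · rw [← h0, Real.zero_rpow (by positivity), Real.zero_rpow (by positivity)]
    · exact Real.rpow_le_rpow_of_exponent_ge h0 h.le (by linarith)

end Pool.Agent.Q219.GWB.TUnion
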