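import Pool.Agent.Q219.GWB.Stmts

set_option autoImplicit false

namespace Pool.Agent.Q219.GWB.TZip

open MeasureTheory ProbabilityTheory Set Filter Topology Pool.Agent.Q219.GWB

theorem main : Pool.Agent.Q219.GWB.TaskZip := by
  intro ν β hν hβ
  have hzip : Measurable (fun z : (List ℕ → ℕ) × (List ℕ → Bool) => fun w => (z.1 w, z.2 w)) := by
    refine measurable_pi_lambda _ fun w => ?_
    exact ((measurable_pi_apply w).comp measurable_fst).prodMk
      ((measurable_pi_apply w).comp measurable_snd)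
  apply Measure.eq_infinitePi
  intro s t ht
  have hbox : MeasurableSet (Set.pi (s : Set (List ℕ)) t) :=
    MeasurableSet.pi s.countable_toSet fun i _ => ht i
  rw [Measure.map_apply hzip hbox, Measure.prod_apply (hzip hbox)]
  -- the inner measure
  have hin : ∀ x : List ℕ → ℕ,
      (Measure.infinitePi (fun _ : List ℕ => β)) (Prod.mk x ⁻¹'
        ((fun z : (List ℕ → ℕ) × (List ℕ → Bool) => fun w => (z.1 w, z.2 w)) ⁻¹'
          (Set.pi (s : Set (List ℕ)) t))) = ∏ w ∈ s, β (Prod.mk (x w) ⁻¹' t w) := by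
    intro x
    rw [← Measure.infinitePi_pi (μ := fun _ : List ℕ => β) (s := s)
      (t := fun w => Prod.mk (x w) ⁻¹' t w)
      (fun i _ => measurable_prodMk_left (ht i))]
    rfl
  simp only [hin]
  have hm : ∀ w, Measurable (fun n : ℕ => β (Prod.mk n ⁻¹' t w)) := fun w => measurable_of_countable _
  have hind : iIndepFun (fun (w : List ℕ) (x : List ℕ → ℕ) => β (Prod.mk (x w) ⁻¹' t w))
      (Measure.infinitePi (fun _ : List ℕ => ν)) :=
    iIndepFun_infinitePi (P := fun _ : List ℕ => ν) (X := fun w (n : ℕ) => β (Prod.mk n ⁻¹' t w)) hm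
  have h1 := lintegral_prod_eq_prod_lintegral_of_indepFun s
    (fun (w : List ℕ) (x : List ℕ → ℕ) => β (Prod.mk (x w) ⁻¹' t w)) hind
    (fun w => (hm w).comp (measurable_pi_apply w))
  rw [h1]
  refine Finset.prod_congr rfl fun w _ => ?_
  rw [Measure.prod_apply (ht w)]
  have h2 : ∫⁻ x : List ℕ → ℕ, β (Prod.mk (x w) ⁻¹' t w) ∂(Measure.infinitePi (fun _ : List ℕ => ν)) =
      ∫⁻ n, β (Prod.mk n ⁻¹' t w) ∂((Measure.infinitePi (fun _ : List ℕ => ν)).map (fun x => x w)) := by
    rw [lintegral_map (hm w) (measurable_pi_apply w)]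
  rw [h2]
  congr 1
  exact Measure.infinitePi_map_eval (fun _ : List ℕ => ν) w

end Pool.Agent.Q219.GWB.TZip
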